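import Pool.Agent.QMark.Fvec

/-!
# Reduction of a system of inequalities to a simple system

Working file of helper56 for MP_f8fadf_co.
-/

namespace QMark

open Finset Filter Topology
open scoped InnerProductSpace

variable {ι : Type*} [Fintype ι] [DecidableEq ι]

/-- The outer normals of a simplex. -/
noncomputable def nrm : Fin 5 → E4 :=
  ![!₂[-1, 0, 0, 0], !₂[0, -1, 0, 0], !₂[0, 0, -1, 0], !₂[0, 0, 0, -1], !₂[1, 1, 1, 1]]

theorem inner_nrm (p : E4) : ⟪nrm 0, p⟫_ℝ = -p 0 ∧ ⟪nrm 1, p⟫_ℝ = -p 1 ∧ ⟪nrm 2, p⟫_ℝ = -p 2 ∧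
    ⟪nrm 3, p⟫_ℝ = -p 3 ∧ ⟪nrm 4, p⟫_ℝ = p 0 + p 1 + p 2 + p 3 := by
  simp [nrm, PiLp.inner_apply, Fin.sum_univ_four]

theorem bdd_simplex (u : ι → E4) (b : ι ⊕ Fin 5 → ℝ) :
    Bornology.IsBounded (Poly (Sum.elim u nrm) b) := by
  set K : ℝ := |b (.inr 0)| + |b (.inr 1)| + |b (.inr 2)| + |b (.inr 3)| + |b (.inr 4)| with hK
  have h0 := abs_nonneg (b (.inr 0))
  have h1 := abs_nonneg (b (.inr 1))
  have h2 := abs_nonneg (b (.inr 2))
  have h3 := abs_nonneg (b (.inr 3))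
  have h4 := abs_nonneg (b (.inr 4))
  have e0 := le_abs_self (b (.inr 0))
  have e1 := le_abs_self (b (.inr 1))
  have e2 := le_abs_self (b (.inr 2))
  have e3 := le_abs_self (b (.inr 3))
  have e4 := le_abs_self (b (.inr 4))
  apply (Metric.isBounded_closedBall (x := (0 : E4)) (r := 2 * K)).subset
  intro p hp
  rw [mem_closedBall_zero_iff]
  obtain ⟨n0, n1, n2, n3, n4⟩ := inner_nrm p
  have g0 : ⟪nrm 0, p⟫_ℝ ≤ b (.inr 0) := hp (.inr 0)
  have g1 : ⟪nrm 1, p⟫_ℝ ≤ b (.inr 1) := hp (.inr 1)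
  have g2 : ⟪nrm 2, p⟫_ℝ ≤ b (.inr 2) := hp (.inr 2)
  have g3 : ⟪nrm 3, p⟫_ℝ ≤ b (.inr 3) := hp (.inr 3)
  have g4 : ⟪nrm 4, p⟫_ℝ ≤ b (.inr 4) := hp (.inr 4)
  have hsq : ∀ i : Fin 4, p i ^ 2 ≤ K ^ 2 := by
    intro i
    rw [sq_le_sq, abs_of_nonneg (show 0 ≤ K by positivity), abs_le]
    fin_cases i <;> constructor <;> simp only [Fin.zero_eta, Fin.mk_one, Fin.reduceFinMk] <;>
      linarith
  have hn : ‖p‖ ^ 2 ≤ (2 * K) ^ 2 := by
    rw [EuclideanSpace.real_norm_sq_eq, Fin.sum_univ_four]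
    linarith [hsq 0, hsq 1, hsq 2, hsq 3]
  exact (sq_le_sq₀ (norm_nonneg _) (by positivity)).mp hn

/-- The right hand sides for which the equations of `S` have a solution. -/
noncomputable def W (u : ι → E4) (S : Finset ι) : Submodule ℝ (ι → ℝ) where
  carrier := {β | ∃ p : E4, ∀ i ∈ S, ⟪u i, p⟫_ℝ = β i}
  add_mem' := by
    rintro β γ ⟨p, hp⟩ ⟨q, hq⟩
    exact ⟨p + q, fun i hi => by rw [inner_add_right, hp i hi, hq i hi]; rfl⟩
  zero_mem' := ⟨0, fun i _ => by rw [inner_zero_right]; rfl⟩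
  smul_mem' := by
    rintro c β ⟨p, hp⟩
    exact ⟨c • p, fun i hi => by rw [inner_smul_right, hp i hi]; rfl⟩

omit [Fintype ι] in
theorem W_ne_top (u : ι → E4) {S : Finset ι} (hS : S.card = 5) : W u S ≠ ⊤ := by
  intro htop
  let L : E4 →ₗ[ℝ] (S → ℝ) :=
    { toFun := fun p i => ⟪u i, p⟫_ℝ
      map_add' := fun p q => by
        funext i
        exact inner_add_right _ _ _
      map_smul' := fun c p => by
        funext i
        exact inner_smul_right _ _ _ }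
  have hsur : Function.Surjective L := by
    intro β
    have h1 : (fun i : ι => if h : i ∈ S then β ⟨i, h⟩ else 0) ∈ W u S := by
      rw [htop]
      exact Submodule.mem_top
    obtain ⟨p, hp⟩ := h1
    refine ⟨p, ?_⟩
    funext i
    change ⟪u i, p⟫_ℝ = β i
    rw [hp i.1 i.2]
    exact dif_pos i.2
  have h1 := LinearMap.finrank_le_finrank_of_surjective hsur
  rw [finrank_euclideanSpace_fin, Module.finrank_fintype_fun_eq_card, Fintype.card_coe, hS] at h1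
  omega

theorem exists_dir (u : ι → E4) : ∃ β : ι → ℝ, ∀ S : Finset ι, S.card = 5 → β ∉ W u S := by
  by_contra hcon
  push Not at hcon
  let J := {S : Finset ι // S.card = 5}
  obtain ⟨S, hS⟩ := Subspace.exists_eq_top_of_iUnion_eq_univ (p := fun S : J => W u S.1) (by
    rw [Set.eq_univ_iff_forall]
    intro β
    obtain ⟨S, hS, hβ⟩ := hcon β
    exact Set.mem_iUnion.mpr ⟨⟨S, hS⟩, hβ⟩)
  exact W_ne_top u S.2 hS

/-- Prescribed inner products with independent vectors. -/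
theorem exists_inner {J : Type*} (w : J → E4) (hw : LinearIndependent ℝ w) (c : J → ℝ) :
    ∃ v : E4, ∀ i, ⟪w i, v⟫_ℝ = c i := by
  obtain ⟨g, hg⟩ := LinearMap.exists_extend ((Module.Basis.span hw).constr ℝ c)
  refine ⟨(InnerProductSpace.toDual ℝ E4).symm (LinearMap.toContinuousLinearMap g), fun i => ?_⟩
  rw [real_inner_comm, InnerProductSpace.toDual_symm_apply]
  change g (w i) = c i
  have h1 := (Module.Basis.span hw).constr_basis ℝ c i
  rw [← hg] at h1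
  rw [← h1]
  change g (w i) = g ((Module.Basis.span hw i : Submodule.span ℝ (Set.range w)) : E4)
  rw [Module.Basis.span_apply]

theorem ev_not {A : Set ℝ} (hA : ∀ x ∈ A, ∀ y ∈ A, x = y) : ∀ᶠ τ in 𝓝[>] (0 : ℝ), τ ∉ A := by
  by_cases hex : ∃ τ0 ∈ A, 0 < τ0
  · obtain ⟨τ0, h0, hpos⟩ := hex
    have h1 : ∀ᶠ τ in 𝓝 (0 : ℝ), τ < τ0 := Iio_mem_nhds hpos
    filter_upwards [nhdsWithin_le_nhds h1] with τ hτ hc
    exact hτ.ne (hA τ hc τ0 h0)
  · push Not at hex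
    filter_upwards [self_mem_nhdsWithin] with τ hτ hc
    exact absurd hτ (not_lt.mpr (hex τ hc))

theorem ev_lt {x y c d : ℝ} (h : x < c) : ∀ᶠ τ in 𝓝[>] (0 : ℝ), x + τ * y < c + τ * d := by
  have h1 : Tendsto (fun τ : ℝ => x + τ * y) (𝓝 0) (𝓝 (x + 0 * y)) := by
    apply Continuous.tendsto
    fun_prop
  have h2 : Tendsto (fun τ : ℝ => c + τ * d) (𝓝 0) (𝓝 (c + 0 * d)) := by
    apply Continuous.tendsto
    fun_prop
  have h3 := Tendsto.eventually_lt h1 h2 (by simpa using h)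
  exact nhdsWithin_le_nhds h3

/-- **Reduction to a simple system.** -/
theorem reduce (u : ι → E4) (b : ι → ℝ) (𝒜 : Finset (Finset ι))
    (hA : ∀ A ∈ 𝒜, ∃ p : E4, (∀ i ∈ A, ⟪u i, p⟫_ℝ = b i) ∧ (∀ i ∉ A, ⟪u i, p⟫_ℝ < b i) ∧
      LinearIndependent ℝ (fun i : A => u i)) :
    ∃ (u' : ι ⊕ Fin 5 → E4) (b' : ι ⊕ Fin 5 → ℝ), SP u' b' ∧
      ∀ A ∈ 𝒜, ∃ p ∈ Poly u' b', act u' b' p = A.map Function.Embedding.inl := by
  have hA' : ∀ A : Finset ι, ∃ p : E4, A ∈ 𝒜 → (∀ i ∈ A, ⟪u i, p⟫_ℝ = b i) ∧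
      (∀ i ∉ A, ⟪u i, p⟫_ℝ < b i) ∧ LinearIndependent ℝ (fun i : A => u i) := by
    intro A
    by_cases h : A ∈ 𝒜
    · obtain ⟨p, hp⟩ := hA A h
      exact ⟨p, fun _ => hp⟩
    · exact ⟨0, fun hc => absurd hc h⟩
  choose p hp using hA'
  -- the simplex
  set R : ℝ := 1 + ∑ A ∈ 𝒜, ∑ j : Fin 5, |⟪nrm j, p A⟫_ℝ| with hR
  set u' : ι ⊕ Fin 5 → E4 := Sum.elim u nrm with hu'
  set b0 : ι ⊕ Fin 5 → ℝ := Sum.elim b (fun _ => R) with hb0
  obtain ⟨β, hβ⟩ := exists_dir u'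
  have hstrict : ∀ A ∈ 𝒜, ∀ i ∉ A.map (Function.Embedding.inl : ι ↪ ι ⊕ Fin 5),
      ⟪u' i, p A⟫_ℝ < b0 i := by
    intro A hA1 i hi
    cases i with
    | inl i =>
      apply (hp A hA1).2.1
      intro hc
      exact hi (mem_map_of_mem Function.Embedding.inl hc)
    | inr j =>
      change ⟪nrm j, p A⟫_ℝ < R
      have h1 := single_le_sum (f := fun j : Fin 5 => |⟪nrm j, p A⟫_ℝ|)
        (fun j _ => abs_nonneg _) (mem_univ j)
      have h2 := single_le_sum (f := fun A => ∑ j : Fin 5, |⟪nrm j, p A⟫_ℝ|)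
        (fun A _ => sum_nonneg fun j _ => abs_nonneg _) hA1
      have h3 := le_abs_self ⟪nrm j, p A⟫_ℝ
      linarith
  have hv : ∀ A : Finset ι, ∃ v : E4, A ∈ 𝒜 → ∀ i ∈ A, ⟪u i, v⟫_ℝ = β (.inl i) := by
    intro A
    by_cases h : A ∈ 𝒜
    · obtain ⟨v, hv⟩ := exists_inner (fun i : A => u i) (hp A h).2.2 (fun i => β (.inl i))
      exact ⟨v, fun _ i hi => hv ⟨i, hi⟩⟩
    · exact ⟨0, fun hc => absurd hc h⟩
  choose v hv using hv
  have ev1 : ∀ᶠ τ in 𝓝[>] (0 : ℝ), ∀ S : Finset (ι ⊕ Fin 5), S.card = 5 →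
      b0 + τ • β ∉ W u' S := by
    rw [eventually_all]
    intro S
    by_cases hS : S.card = 5
    · have h1 := ev_not (A := {τ : ℝ | b0 + τ • β ∈ W u' S}) (by
        intro x hx y hy
        by_contra hxy
        apply hβ S hS
        have h2 := (W u' S).sub_mem hx hy
        rw [add_sub_add_left_eq_sub, ← sub_smul] at h2
        have h3 := (W u' S).smul_mem (x - y)⁻¹ h2
        rwa [smul_smul, inv_mul_cancel₀ (sub_ne_zero.mpr hxy), one_smul] at h3)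
      filter_upwards [h1] with τ hτ _
      exact hτ
    · exact Eventually.of_forall fun τ hc => absurd hc hS
  have ev2 : ∀ᶠ τ in 𝓝[>] (0 : ℝ), ∀ A ∈ 𝒜, ∀ i ∉ A.map (Function.Embedding.inl : ι ↪ ι ⊕ Fin 5),
      ⟪u' i, p A⟫_ℝ + τ * ⟪u' i, v A⟫_ℝ < b0 i + τ * β i := by
    rw [eventually_all_finset]
    intro A hA1
    rw [eventually_all]
    intro i
    by_cases hi : i ∈ A.map (Function.Embedding.inl : ι ↪ ι ⊕ Fin 5)
    · exact Eventually.of_forall fun τ hc => absurd hi hc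
    · filter_upwards [ev_lt (hstrict A hA1 i hi)] with τ hτ _
      exact hτ
  obtain ⟨τ, hτ1, hτ2⟩ := (ev1.and ev2).exists
  refine ⟨u', b0 + τ • β, ⟨bdd_simplex _ _, ?_⟩, ?_⟩
  · intro q _
    by_contra hcard
    push Not at hcard
    obtain ⟨S, hS, hSc⟩ := exists_subset_card_eq (n := 5) hcard
    exact hτ1 S hSc ⟨q, fun i hi => mem_act.mp (hS hi)⟩
  · intro A hA1
    have hin : ∀ i, ⟪u' i, p A + τ • v A⟫_ℝ = ⟪u' i, p A⟫_ℝ + τ * ⟪u' i, v A⟫_ℝ := fun i =>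
      inner_add_smul i _ _ _
    have hb : ∀ i, (b0 + τ • β) i = b0 i + τ * β i := fun i => rfl
    have heq : ∀ i ∈ A, ⟪u i, p A⟫_ℝ + τ * ⟪u i, v A⟫_ℝ = b i + τ * β (.inl i) := by
      intro i hi
      rw [(hp A hA1).1 i hi, hv A hA1 i hi]
    refine ⟨p A + τ • v A, ?_, ?_⟩
    · intro i
      rw [hin, hb]
      by_cases hi : i ∈ A.map (Function.Embedding.inl : ι ↪ ι ⊕ Fin 5)
      · obtain ⟨j, hj, rfl⟩ := mem_map.mp hi
        exact (heq j hj).le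
      · exact (hτ2 A hA1 i hi).le
    · ext i
      rw [mem_act, hin, hb]
      constructor
      · intro h1
        by_contra hi
        exact (hτ2 A hA1 i hi).ne h1
      · intro hi
        obtain ⟨j, hj, rfl⟩ := mem_map.mp hi
        exact heq j hj

end QMark
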