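import Pool.Agent.QMark.Red

/-!
# Sections and subsystems

Working file of helper56 for MP_f8fadf_co.
-/

namespace QMark

open Finset Filter Topology
open scoped InnerProductSpace

variable {ι : Type*} [Fintype ι] [DecidableEq ι] {u : ι → E4} {b : ι → ℝ}

/-- Independence of the vectors with index in `A`. -/
def Ind (u : ι → E4) (A : Finset ι) : Prop :=
  ∀ c : ι → ℝ, ∑ i ∈ A, c i • u i = 0 → ∀ i ∈ A, c i = 0

omit [Fintype ι] in
theorem ind_iff {A : Finset ι} : Ind u A ↔ LinearIndependent ℝ (fun i : A => u i) := by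
  rw [Fintype.linearIndependent_iff]
  constructor
  · intro h g hg i
    have h1 := h (fun j => if hj : j ∈ A then g ⟨j, hj⟩ else 0) (by
      rw [← Finset.sum_coe_sort (s := A), ← hg]
      apply sum_congr rfl
      intro j _
      simp only [coe_mem, dite_true]) i.1 i.2
    simpa using h1
  · intro h c hc i hi
    exact h (fun j => c j) (by rw [← hc, ← Finset.sum_coe_sort (s := A)]) ⟨i, hi⟩

/-- A witness for the face `A`. -/
def Wit (u : ι → E4) (b : ι → ℝ) (A : Finset ι) : Prop :=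
  ∃ p : E4, (∀ i ∈ A, ⟪u i, p⟫_ℝ = b i) ∧ (∀ i ∉ A, ⟪u i, p⟫_ℝ < b i) ∧ Ind u A

/-- Triples through a given facet. -/
theorem three_bound (a : ι) (𝒜 : Finset (Finset ι))
    (h : ∀ A ∈ 𝒜, A.card = 3 ∧ a ∈ A ∧ Wit u b A) : 𝒜.card ≤ 3 * (Fintype.card ι + 4) := by
  obtain ⟨u', b', hsp, hA⟩ := reduce u b 𝒜 (fun A hA => by
    obtain ⟨-, -, p, h1, h2, h3⟩ := h A hA
    exact ⟨p, h1, h2, ind_iff.mp h3⟩)
  have h1 := edges_at hsp (.inl a)
  have h2 : 𝒜.card ≤ ((faces u' b' 3).filter fun x => {Sum.inl a} ⊆ x).card := by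
    apply card_le_card_of_injOn (fun A => A.map Function.Embedding.inl)
    · intro A hAm
      rw [mem_coe] at hAm
      obtain ⟨hc, ha, -⟩ := h A hAm
      rw [mem_coe, mem_filter, mem_faces, singleton_subset_iff]
      obtain ⟨p, hp, hpa⟩ := hA A hAm
      obtain ⟨t, ht, hpt⟩ := exists_tet hsp hp
      rw [hpa] at hpt
      refine ⟨⟨by rw [card_map, hc], t, ht, hpt⟩, ?_⟩
      exact mem_map_of_mem Function.Embedding.inl ha
    · intro A _ B _ hAB
      exact map_injective _ hAB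
  rw [Fintype.card_sum, Fintype.card_fin] at h1
  omega

/-- Quadruples through a given facet. -/
theorem four_bound (a : ι) (𝒜 : Finset (Finset ι))
    (h : ∀ A ∈ 𝒜, A.card = 4 ∧ a ∈ A ∧ Wit u b A) : 𝒜.card ≤ 2 * (Fintype.card ι + 4) := by
  obtain ⟨u', b', hsp, hA⟩ := reduce u b 𝒜 (fun A hA => by
    obtain ⟨-, -, p, h1, h2, h3⟩ := h A hA
    exact ⟨p, h1, h2, ind_iff.mp h3⟩)
  have h1 := tets_at hsp (.inl a)
  have h2 : 𝒜.card ≤ ((tets u' b').filter fun x => {Sum.inl a} ⊆ x).card := by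
    apply card_le_card_of_injOn (fun A => A.map Function.Embedding.inl)
    · intro A hAm
      rw [mem_coe] at hAm
      obtain ⟨hc, ha, -⟩ := h A hAm
      rw [mem_coe, mem_filter, mem_tets, singleton_subset_iff]
      obtain ⟨p, hp, hpa⟩ := hA A hAm
      exact ⟨⟨by rw [card_map, hc], p, hp, hpa⟩, mem_map_of_mem Function.Embedding.inl ha⟩
    · intro A _ B _ hAB
      exact map_injective _ hAB
  rw [Fintype.card_sum, Fintype.card_fin] at h1
  omega

/-- Relative interior points of the faces. -/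
theorem exists_pt (h : SP u b) {t : Finset ι} (ht : t ∈ tets u b) {x : Finset ι} (hx : x ⊆ t) :
    ∃ p ∈ Poly u b, act u b p = x := by
  obtain ⟨hc, p, hp, hpa⟩ := mem_tets.mp ht
  have hli := indep h hp
  rw [hpa] at hli
  obtain ⟨v, hv⟩ := exists_inner (fun i : t => u i) hli (fun i => if i.1 ∈ x then 0 else -1)
  have hv' : ∀ i ∈ t, ⟪u i, v⟫_ℝ = if i ∈ x then 0 else -1 := fun i hi => hv ⟨i, hi⟩
  have ev : ∀ᶠ τ in 𝓝[>] (0 : ℝ), ∀ i, i ∉ t → ⟪u i, p⟫_ℝ + τ * ⟪u i, v⟫_ℝ < b i + τ * 0 := by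
    rw [eventually_all]
    intro i
    by_cases hi : i ∈ t
    · exact Eventually.of_forall fun τ hc => absurd hi hc
    · have h1 : ⟪u i, p⟫_ℝ < b i := by
        refine lt_of_le_of_ne (hp i) fun he => hi ?_
        rw [← hpa]
        exact mem_act.mpr he
      filter_upwards [ev_lt h1] with τ hτ _
      exact hτ
  obtain ⟨τ, hτ1, hτ2⟩ := (ev.and self_mem_nhdsWithin).exists
  replace hτ2 : 0 < τ := hτ2
  have key : ∀ i, (i ∈ x → ⟪u i, p + τ • v⟫_ℝ = b i) ∧ (i ∉ x → ⟪u i, p + τ • v⟫_ℝ < b i) := by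
    intro i
    rw [inner_add_smul]
    constructor
    · intro hi
      rw [hv' i (hx hi), if_pos hi, mul_zero, add_zero]
      exact mem_act.mp (by rw [hpa]; exact hx hi)
    · intro hi
      by_cases hit : i ∈ t
      · rw [hv' i hit, if_neg hi]
        have h1 : ⟪u i, p⟫_ℝ = b i := mem_act.mp (by rw [hpa]; exact hit)
        rw [h1]
        linarith
      · have h1 := hτ1 i hit
        linarith
  refine ⟨p + τ • v, fun i => ?_, ?_⟩
  · by_cases hi : i ∈ x
    · exact ((key i).1 hi).le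
    · exact ((key i).2 hi).le
  · ext i
    rw [mem_act]
    constructor
    · intro h1
      by_contra hi
      exact ((key i).2 hi).ne h1
    · exact (key i).1

theorem wit_of_mem (h : SP u b) {k : ℕ} {x : Finset ι} (hx : x ∈ faces u b k) :
    ∃ p ∈ Poly u b, act u b p = x ∧ Ind u x := by
  obtain ⟨-, t, ht, hxt⟩ := mem_faces.mp hx
  obtain ⟨p, hp, hpa⟩ := exists_pt h ht hxt
  refine ⟨p, hp, hpa, ?_⟩
  have := indep h hp
  rw [hpa] at this
  exact ind_iff.mpr this

theorem card_sub {k : ℕ} (L : Finset ι) :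
    ((faces u b k).filter fun x => x ⊆ L).card ≤ (L.card).choose k := by
  rw [← card_powersetCard]
  apply card_le_card
  intro x hx
  rw [mem_filter, mem_faces] at hx
  rw [mem_powersetCard]
  exact ⟨hx.2, hx.1.1⟩

/-- The induced subgraph of the adjacency graph of the 2-faces of a facet. -/
theorem link_bound (h : SP u b) (a : ι) (M : Finset ι) :
    ((faces u b 3).filter fun y => a ∈ y ∧ y ⊆ insert a M).card ≤ 3 * (M.card + 5) := by
  classical
  let J := {i // i ∈ insert a M}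
  set F := (faces u b 3).filter fun y => a ∈ y ∧ y ⊆ insert a M with hF
  set 𝒜 : Finset (Finset J) := F.image fun y => y.subtype (· ∈ insert a M) with h𝒜
  have hinj : 𝒜.card = F.card := by
    apply card_image_of_injOn
    intro y hy y' hy' hyy
    rw [mem_coe, hF, mem_filter] at hy hy'
    have e1 := subtype_map_of_mem (p := (· ∈ insert a M)) (s := y) hy.2.2
    have e2 := subtype_map_of_mem (p := (· ∈ insert a M)) (s := y') hy'.2.2
    have e3 : y.subtype (· ∈ insert a M) = y'.subtype (· ∈ insert a M) := hyy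
    rw [← e1, ← e2, e3]
  have hb := three_bound (u := fun i : J => u i) (b := fun i : J => b i)
    (⟨a, mem_insert_self _ _⟩ : J) 𝒜 (by
      intro A hA
      rw [h𝒜, mem_image] at hA
      obtain ⟨y, hy, rfl⟩ := hA
      rw [hF, mem_filter] at hy
      obtain ⟨hy1, hy2, hy3⟩ := hy
      obtain ⟨p, hp, hpa, hind⟩ := wit_of_mem h hy1
      refine ⟨?_, ?_, p, ?_, ?_, ?_⟩
      · rw [card_subtype, filter_true_of_mem (fun i hi => hy3 hi), (mem_faces.mp hy1).1]
      · rw [mem_subtype]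
        exact hy2
      · intro i hi
        rw [mem_subtype, ← hpa] at hi
        exact mem_act.mp hi
      · intro i hi
        rw [mem_subtype, ← hpa] at hi
        exact lt_of_le_of_ne (hp i) fun he => hi (mem_act.mpr he)
      · intro c hc i hi
        rw [mem_subtype] at hi
        have h1 := hind (fun j => if hj : j ∈ insert a M then c ⟨j, hj⟩ else 0) (by
          rw [← hc, ← sum_subtype_of_mem _ (p := (· ∈ insert a M)) hy3]
          apply sum_congr rfl
          intro j _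
          simp only [j.2, dite_true]) i hi
        simpa [i.2] using h1)
  rw [hinj, Fintype.card_coe] at hb
  have hc := card_insert_le a M
  omega

theorem two_mul_le {N k : ℕ} (h1 : N ≤ k.choose 2) (h2 : N ≤ 3 * (k + 5)) : 2 * N ≤ 9 * k := by
  rcases le_total k 10 with hk | hk
  · have : ∀ k ≤ 10, 2 * Nat.choose k 2 ≤ 9 * k := by decide
    have := this k hk
    omega
  · omega

theorem two_mul_le' {N k : ℕ} (h1 : N ≤ k.choose 3) (h2 : N ≤ 2 * (k + 5)) : 2 * N ≤ 7 * k := by
  rcases le_total k 6 with hk | hk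
  · have : ∀ k ≤ 6, 2 * Nat.choose k 3 ≤ 7 * k := by decide
    have := this k hk
    omega
  · rcases hk.eq_or_lt with rfl | hk
    · have : Nat.choose 6 3 = 20 := by decide
      omega
    · omega

theorem link_bound' (h : SP u b) (a : ι) (M : Finset ι) :
    2 * ((faces u b 3).filter fun y => a ∈ y ∧ y ⊆ insert a M).card ≤ 9 * M.card := by
  apply two_mul_le _ (link_bound h a M)
  rw [← card_powersetCard]
  apply card_le_card_of_injOn (fun y => y.erase a)
  · intro y hy
    rw [mem_coe, mem_filter, mem_faces] at hy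
    rw [mem_coe, mem_powersetCard]
    obtain ⟨⟨hy1, -⟩, hy2, hy3⟩ := hy
    refine ⟨?_, ?_⟩
    · intro i hi
      have h1 := hy3 (mem_of_mem_erase hi)
      rw [mem_insert] at h1
      exact h1.resolve_left (ne_of_mem_erase hi)
    · rw [card_erase_of_mem hy2, hy1]
  · intro y hy y' hy' hyy
    rw [mem_coe, mem_filter] at hy hy'
    have e : y.erase a = y'.erase a := hyy
    rw [← insert_erase hy.2.1, ← insert_erase hy'.2.1, e]

/-- The subsystem of `L` with a further inequality. -/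
def ext (u : ι → E4) (L : Finset ι) (g : E4) : Option {i // i ∈ L} → E4 :=
  fun o => o.elim g fun i => u i

/-- The right hand sides. -/
def extb (b : ι → ℝ) (L : Finset ι) (c : ℝ) : Option {i // i ∈ L} → ℝ :=
  fun o => o.elim c fun i => b i

/-- A section of the faces with facets in `L`. -/
def Sec (u : ι → E4) (b : ι → ℝ) (L : Finset ι) (g : E4) (c : ℝ) : Prop :=
  ∀ p ∈ Poly u b, ∃ (q v : E4) (κ : ℝ), 0 < κ ∧
    (∀ i ∈ L, ⟪u i, q⟫_ℝ - b i = κ * (⟪u i, p⟫_ℝ - b i)) ∧ ⟪g, q⟫_ℝ = c ∧ ⟪g, v⟫_ℝ ≠ 0 ∧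
    ∀ i ∈ L, i ∈ act u b p → ⟪u i, v⟫_ℝ = 0

theorem wit_ext {L : Finset ι} {g : E4} {c : ℝ} (hs : Sec u b L g c) {x : Finset ι} (hxL : x ⊆ L)
    {p : E4} (hp : p ∈ Poly u b) (hpa : act u b p = x) (hind : Ind u x) :
    Wit (ext u L g) (extb b L c) (insertNone (x.subtype (· ∈ L))) := by
  obtain ⟨q, v, κ, hκ, h1, h2, h3, h4⟩ := hs p hp
  refine ⟨q, ?_, ?_, ?_⟩
  · intro o ho
    cases o with
    | none => exact h2
    | some i =>
      rw [some_mem_insertNone, mem_subtype, ← hpa, mem_act] at ho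
      have h5 := h1 i i.2
      rw [ho, sub_self, mul_zero, sub_eq_zero] at h5
      exact h5
  · intro o ho
    cases o with
    | none => exact absurd (mem_insertNone.mpr (by simp)) ho
    | some i =>
      rw [some_mem_insertNone, mem_subtype, ← hpa, mem_act] at ho
      have h5 := h1 i i.2
      have h6 : ⟪u i, p⟫_ℝ - b i < 0 := sub_neg.mpr (lt_of_le_of_ne (hp i) ho)
      have h7 := mul_neg_of_pos_of_neg hκ h6
      change ⟪u i, q⟫_ℝ < b i
      linarith
  · intro d hd
    rw [Finset.sum_insertNone] at hd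
    have hd' : d none • g + ∑ i ∈ x.subtype (· ∈ L), d (some i) • u i = 0 := hd
    have h5 : d none * ⟪g, v⟫_ℝ = 0 := by
      have h6 : ⟪d none • g + ∑ i ∈ x.subtype (· ∈ L), d (some i) • u i, v⟫_ℝ = 0 := by
        rw [hd', inner_zero_left]
      rw [inner_add_left, inner_smul_left, sum_inner, sum_eq_zero, add_zero] at h6
      · simpa using h6
      · intro i hi
        rw [mem_subtype, ← hpa] at hi
        rw [inner_smul_left, h4 i i.2 hi, mul_zero]
    have h6 : d none = 0 := (mul_eq_zero.mp h5).resolve_right h3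
    rw [h6, zero_smul, zero_add] at hd'
    have h7 := hind (fun j => if hj : j ∈ L then d (some ⟨j, hj⟩) else 0) (by
      rw [← hd', ← sum_subtype_of_mem _ (p := (· ∈ L)) (fun i hi => hxL hi)]
      apply sum_congr rfl
      intro j _
      simp only [j.2, dite_true])
    intro o ho
    cases o with
    | none => exact h6
    | some i =>
      rw [some_mem_insertNone, mem_subtype] at ho
      have h8 := h7 i ho
      simpa [i.2] using h8

/-- The cones have sections. -/
theorem exists_sec {L : Finset ι} {z : E4} {ζ : ℝ} (hz : z ≠ 0 ∨ ζ ≠ 0)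
    (hL : ∀ i ∈ L, ⟪u i, z⟫_ℝ = ζ * b i) (hno : ¬ ∃ p ∈ Poly u b, L ⊆ act u b p) :
    ∃ (g : E4) (c : ℝ), Sec u b L g c := by
  by_cases hζ : ζ = 0
  · have hz0 : z ≠ 0 := hz.resolve_right fun hc => hc hζ
    have hzz : ⟪z, z⟫_ℝ ≠ 0 := inner_self_ne_zero.mpr hz0
    have hL0 : ∀ i ∈ L, ⟪u i, z⟫_ℝ = 0 := fun i hi => by rw [hL i hi, hζ, zero_mul]
    refine ⟨z, 0, fun p _ => ⟨p + (-(⟪z, p⟫_ℝ / ⟪z, z⟫_ℝ)) • z, z, 1, one_pos, ?_, ?_, hzz, ?_⟩⟩
    · intro i hi
      rw [inner_add_smul, hL0 i hi, mul_zero, add_zero, one_mul]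
    · rw [inner_add_right, inner_smul_right, neg_mul, div_mul_cancel₀ _ hzz, add_neg_cancel]
    · exact fun i hi _ => hL0 i hi
  · set p0 : E4 := ζ⁻¹ • z with hp0
    have hL0 : ∀ i ∈ L, ⟪u i, p0⟫_ℝ = b i := by
      intro i hi
      rw [hp0, inner_smul_right, hL i hi, ← mul_assoc, inv_mul_cancel₀ hζ, one_mul]
    have hnp : p0 ∉ Poly u b := fun hc => hno ⟨p0, hc, fun i hi => mem_act.mpr (hL0 i hi)⟩
    obtain ⟨i0, hi0⟩ : ∃ i0, b i0 < ⟪u i0, p0⟫_ℝ := by
      by_contra hcon
      push Not at hcon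
      exact hnp hcon
    set c : ℝ := (b i0 + ⟪u i0, p0⟫_ℝ) / 2 with hc
    refine ⟨u i0, c, fun p hp => ?_⟩
    have h1 : ⟪u i0, p⟫_ℝ ≤ b i0 := hp i0
    have h2 : 0 < ⟪u i0, p0⟫_ℝ - c := by rw [hc]; linarith
    have h3 : 0 < ⟪u i0, p0⟫_ℝ - ⟪u i0, p⟫_ℝ := by linarith
    set s : ℝ := (⟪u i0, p0⟫_ℝ - c) / (⟪u i0, p0⟫_ℝ - ⟪u i0, p⟫_ℝ) with hs
    have hs0 : 0 < s := div_pos h2 h3
    have hsm : s * (⟪u i0, p0⟫_ℝ - ⟪u i0, p⟫_ℝ) = ⟪u i0, p0⟫_ℝ - c := by
      rw [hs, div_mul_cancel₀ _ h3.ne']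
    have hq : ∀ i, ⟪u i, p0 + s • (p - p0)⟫_ℝ = ⟪u i, p0⟫_ℝ + s * (⟪u i, p⟫_ℝ - ⟪u i, p0⟫_ℝ) := by
      intro i
      rw [inner_add_smul, inner_sub_right]
    have hqc : ⟪u i0, p0 + s • (p - p0)⟫_ℝ = c := by
      rw [hq]
      linarith
    refine ⟨p0 + s • (p - p0), p0 - (p0 + s • (p - p0)), s, hs0, ?_, hqc, ?_, ?_⟩
    · intro i hi
      rw [hq, hL0 i hi]
      ring
    · rw [inner_sub_right, hqc]
      exact h2.ne'
    · intro i hi hia
      rw [inner_sub_right, hq, hL0 i hi, mem_act.mp hia]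
      ring

theorem le_four (h : SP u b) {L : Finset ι} (hL : ∃ p ∈ Poly u b, L ⊆ act u b p) : L.card ≤ 4 := by
  obtain ⟨p, hp, hpa⟩ := hL
  exact (card_le_card hpa).trans (h.simple p hp)

theorem inj_insertNone {L : Finset ι} {F : Finset (Finset ι)} (hF : ∀ x ∈ F, x ⊆ L) :
    (F.image fun x => insertNone (x.subtype (· ∈ L))).card = F.card := by
  apply card_image_of_injOn
  intro y hy y' hy' hyy
  have e1 := subtype_map_of_mem (p := (· ∈ L)) (s := y) (hF y hy)
  have e2 := subtype_map_of_mem (p := (· ∈ L)) (s := y') (hF y' hy')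
  have e3 : insertNone (y.subtype (· ∈ L)) = insertNone (y'.subtype (· ∈ L)) := hyy
  rw [← e1, ← e2, insertNone.injective e3]

/-- Two facets of a cone. -/
theorem cone_two (h : SP u b) {L : Finset ι} {z : E4} {ζ : ℝ} (hz : z ≠ 0 ∨ ζ ≠ 0)
    (hL : ∀ i ∈ L, ⟪u i, z⟫_ℝ = ζ * b i) :
    2 * ((faces u b 2).filter fun x => x ⊆ L).card ≤ 9 * L.card := by
  classical
  apply two_mul_le (card_sub L)
  by_cases hno : ∃ p ∈ Poly u b, L ⊆ act u b p
  · have h1 := le_four h hno
    have h2 := card_sub (u := u) (b := b) (k := 2) L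
    have h3 : (L.card).choose 2 ≤ Nat.choose 4 2 := Nat.choose_le_choose 2 h1
    have h4 : Nat.choose 4 2 = 6 := by decide
    omega
  · obtain ⟨g, c, hs⟩ := exists_sec hz hL hno
    have hb := three_bound (u := ext u L g) (b := extb b L c) none
      (((faces u b 2).filter fun x => x ⊆ L).image fun x => insertNone (x.subtype (· ∈ L))) (by
        intro A hA
        obtain ⟨x, hx, rfl⟩ := mem_image.mp hA
        rw [mem_filter] at hx
        obtain ⟨p, hp, hpa, hind⟩ := wit_of_mem h hx.1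
        refine ⟨?_, mem_insertNone.mpr (by simp), wit_ext hs hx.2 hp hpa hind⟩
        rw [card_insertNone, card_subtype, filter_true_of_mem (fun i hi => hx.2 hi),
          (mem_faces.mp hx.1).1])
    rw [inj_insertNone (fun x hx => (mem_filter.mp hx).2), Fintype.card_option,
      Fintype.card_coe] at hb
    omega

/-- Three facets of a cone. -/
theorem cone_three (h : SP u b) {L : Finset ι} {z : E4} {ζ : ℝ} (hz : z ≠ 0 ∨ ζ ≠ 0)
    (hL : ∀ i ∈ L, ⟪u i, z⟫_ℝ = ζ * b i) :
    2 * ((faces u b 3).filter fun x => x ⊆ L).card ≤ 7 * L.card := by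
  classical
  apply two_mul_le' (card_sub L)
  by_cases hno : ∃ p ∈ Poly u b, L ⊆ act u b p
  · have h1 := le_four h hno
    have h2 := card_sub (u := u) (b := b) (k := 3) L
    have h3 : (L.card).choose 3 ≤ Nat.choose 4 3 := Nat.choose_le_choose 3 h1
    have h4 : Nat.choose 4 3 = 4 := by decide
    omega
  · obtain ⟨g, c, hs⟩ := exists_sec hz hL hno
    have hb := four_bound (u := ext u L g) (b := extb b L c) none
      (((faces u b 3).filter fun x => x ⊆ L).image fun x => insertNone (x.subtype (· ∈ L))) (by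
        intro A hA
        obtain ⟨x, hx, rfl⟩ := mem_image.mp hA
        rw [mem_filter] at hx
        obtain ⟨p, hp, hpa, hind⟩ := wit_of_mem h hx.1
        refine ⟨?_, mem_insertNone.mpr (by simp), wit_ext hs hx.2 hp hpa hind⟩
        rw [card_insertNone, card_subtype, filter_true_of_mem (fun i hi => hx.2 hi),
          (mem_faces.mp hx.1).1])
    rw [inj_insertNone (fun x hx => (mem_filter.mp hx).2), Fintype.card_option,
      Fintype.card_coe] at hb
    omega

end QMark
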