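import Pool.Agent.QMark.Mark

/-!
# Large 2-faces

Working file of helper56 for MP_f8fadf_co.
-/

namespace QMark

open Finset
open scoped InnerProductSpace

variable {ι : Type*} [Fintype ι] [DecidableEq ι] {u : ι → E4} {b : ι → ℝ}

/-- `t` contains a path of two marked pairs. -/
def Adj (M : Finset (Finset ι)) (t : Finset ι) : Prop :=
  ∃ (a : ι) (y : Finset ι), y ⊆ t ∧ y.card = 3 ∧ a ∈ y ∧ ∀ c ∈ y, c ≠ a → ({a, c} : Finset ι) ∈ M

omit [Fintype ι] in
theorem adj_pair {M : Finset (Finset ι)} {t e e' : Finset ι} (he : e ∈ M) (he' : e' ∈ M)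
    (hc : e.card = 2) (hc' : e'.card = 2) (ht : e ⊆ t) (ht' : e' ⊆ t) (hne : e ≠ e')
    (hi : (e ∩ e').Nonempty) : Adj M t := by
  obtain ⟨a, ha⟩ := hi
  have ha1 := (mem_inter.mp ha).1
  have ha2 := (mem_inter.mp ha).2
  have h1 : (e ∩ e').card = 1 := by
    have h2 : 0 < (e ∩ e').card := card_pos.mpr ⟨a, ha⟩
    have h3 : (e ∩ e').card ≠ 2 := by
      intro h4
      apply hne
      have h5 : e ∩ e' = e := eq_of_subset_of_card_le inter_subset_left (by rw [h4, hc])
      have h6 : e ∩ e' = e' := eq_of_subset_of_card_le inter_subset_right (by rw [h4, hc'])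
      rw [← h5, h6]
    have h4 := card_le_card (inter_subset_left : e ∩ e' ⊆ e)
    omega
  have key : ∀ {s : Finset ι}, s.card = 2 → a ∈ s → ∀ c ∈ s, c ≠ a → ({a, c} : Finset ι) = s := by
    intro s hs has c hcs hca
    apply eq_of_subset_of_card_le
    · intro i hi
      rw [mem_insert, mem_singleton] at hi
      rcases hi with rfl | rfl
      · exact has
      · exact hcs
    · rw [hs, card_pair hca.symm]
  refine ⟨a, e ∪ e', union_subset ht ht', ?_, mem_union_left _ ha1, ?_⟩
  · have h2 := card_union_add_card_inter e e'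
    omega
  · intro c hc1 hca
    rcases mem_union.mp hc1 with h | h
    · rw [key hc ha1 c h hca]
      exact he
    · rw [key hc' ha2 c h hca]
      exact he'

omit [Fintype ι] in
theorem adj_of {M : Finset (Finset ι)} (hM2 : ∀ x ∈ M, x.card = 2) {t : Finset ι}
    (ht : t.card = 4) (hG : ¬ Good M t) (h2 : 2 ≤ (M.filter fun x => x ⊆ t).card) : Adj M t := by
  obtain ⟨e, he, e', he', hne⟩ := one_lt_card.mp (show 1 < (M.filter fun x => x ⊆ t).card by omega)
  rw [mem_filter] at he he'
  have hc := hM2 e he.1
  have hc' := hM2 e' he'.1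
  by_cases hi : (e ∩ e').Nonempty
  · exact adj_pair he.1 he'.1 hc hc' he.2 he'.2 hne hi
  · have hd : Disjoint e e' := by
      rw [disjoint_iff_inter_eq_empty]
      exact not_nonempty_iff_eq_empty.mp hi
    have hcomp : ∀ s : Finset ι, s.card = 2 → s ⊆ t → Disjoint e s → s = t \ e := by
      intro s hs hst hds
      apply eq_of_subset_of_card_le
      · intro i hi
        exact mem_sdiff.mpr ⟨hst hi, fun h => (disjoint_left.mp hds h) hi⟩
      · rw [card_sdiff_of_subset he.2, ht, hc, hs]
    have he2 : e' = t \ e := hcomp e' hc' he'.2 hd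
    have hsub : ({e, t \ e} : Finset (Finset ι)) ⊆ M.filter fun x => x ⊆ t := by
      intro s hs
      rw [mem_insert, mem_singleton] at hs
      rcases hs with rfl | rfl
      · exact mem_filter.mpr he
      · rw [← he2]
        exact mem_filter.mpr he'
    obtain ⟨e3, he3, hne3⟩ : ∃ e3 ∈ M.filter (fun x => x ⊆ t), e3 ∉ ({e, t \ e} : Finset _) := by
      by_contra hcon
      push Not at hcon
      exact hG ⟨e, he.2, hc, subset_antisymm hcon hsub⟩
    rw [mem_insert, mem_singleton, not_or] at hne3
    rw [mem_filter] at he3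
    apply adj_pair he.1 he3.1 hc (hM2 _ he3.1) he.2 he3.2 (Ne.symm hne3.1)
    by_contra hemp
    apply hne3.2
    apply hcomp e3 (hM2 _ he3.1) he3.2
    rw [disjoint_iff_inter_eq_empty]
    exact not_nonempty_iff_eq_empty.mp hemp

theorem sum_mem {M : Finset (Finset ι)} (hM2 : ∀ x ∈ M, x.card = 2) :
    ∑ a : ι, (univ.filter fun c : ι => c ≠ a ∧ ({a, c} : Finset ι) ∈ M).card ≤ 2 * M.card := by
  have h1 := sum_card_bipartiteAbove_eq_sum_card_bipartiteBelow (s := (univ : Finset ι)) (t := M)
    (fun (a : ι) (x : Finset ι) => a ∈ x)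
  have h2 : ∀ x ∈ M, ((univ : Finset ι).bipartiteBelow (fun (a : ι) (x : Finset ι) => a ∈ x) x).card
      = 2 := by
    intro x hx
    rw [← hM2 x hx]
    congr 1
    ext i
    simp [bipartiteBelow]
  rw [sum_congr rfl h2, sum_const, smul_eq_mul] at h1
  have h3 : ∑ a : ι, (univ.filter fun c : ι => c ≠ a ∧ ({a, c} : Finset ι) ∈ M).card ≤
      ∑ a : ι, (M.bipartiteAbove (fun (a : ι) (x : Finset ι) => a ∈ x) a).card := by
    apply sum_le_sum
    intro a _
    apply card_le_card_of_injOn (fun c => ({a, c} : Finset ι))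
    · intro c hc
      rw [mem_coe, mem_filter] at hc
      rw [mem_coe, bipartiteAbove, mem_filter]
      exact ⟨hc.2.2, mem_insert_self _ _⟩
    · intro c hc c' hc' hcc
      rw [mem_coe, mem_filter] at hc hc'
      have h4 : ({a, c} : Finset ι) = {a, c'} := hcc
      have h5 : c ∈ ({a, c'} : Finset ι) := by rw [← h4]; simp
      rw [mem_insert, mem_singleton] at h5
      exact h5.resolve_left hc.2.1
  omega

open Classical in
/-- Few vertices with two adjacent marked pairs. -/
theorem adj_card (h : SP u b) {M : Finset (Finset ι)} (hM2 : ∀ x ∈ M, x.card = 2) :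
    ((tets u b).filter fun t => Adj M t).card ≤ 18 * M.card := by
  set Ma : ι → Finset ι := fun a => univ.filter fun c : ι => c ≠ a ∧ ({a, c} : Finset ι) ∈ M
    with hMa
  have h1 : ((tets u b).filter fun t => Adj M t) ⊆ univ.biUnion fun a : ι =>
      ((faces u b 3).filter fun y => a ∈ y ∧ y ⊆ insert a (Ma a)).biUnion fun y =>
        (tets u b).filter fun t => y ⊆ t := by
    intro t ht
    rw [mem_filter] at ht
    obtain ⟨htT, a, y, hyt, hy3, hay, hyM⟩ := ht
    simp only [mem_biUnion, mem_univ, true_and, mem_filter]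
    refine ⟨a, y, ⟨mem_faces.mpr ⟨hy3, t, htT, hyt⟩, hay, ?_⟩, htT, hyt⟩
    intro c hc
    rw [mem_insert]
    by_cases hca : c = a
    · exact Or.inl hca
    · exact Or.inr (mem_filter.mpr ⟨mem_univ _, hca, hyM c hc hca⟩)
  have h2 : ∀ a : ι, (((faces u b 3).filter fun y => a ∈ y ∧ y ⊆ insert a (Ma a)).biUnion fun y =>
      (tets u b).filter fun t => y ⊆ t).card ≤ 9 * (Ma a).card := by
    intro a
    refine card_biUnion_le.trans ?_
    rw [sum_congr rfl (fun y hy => ?_)]
    · rw [sum_const, smul_eq_mul, mul_comm]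
      exact link_bound' h a (Ma a)
    · rw [mem_filter, mem_faces] at hy
      obtain ⟨⟨hy3, t, ht, hyt⟩, -⟩ := hy
      exact card_three h hy3 ht hyt
  have h3 := (card_le_card h1).trans (card_biUnion_le.trans (sum_le_sum fun a _ => h2 a))
  rw [← mul_sum] at h3
  have h4 := sum_mem hM2
  change ∑ a : ι, (Ma a).card ≤ _ at h4
  omega

/-- The large 2-faces. -/
noncomputable def big (u : ι → E4) (b : ι → ℝ) (D : ℕ) : Finset (Finset ι) :=
  (faces u b 2).filter fun x => D ≤ size u b x

/-- The vertices on at most one large 2-face. -/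
noncomputable def few (u : ι → E4) (b : ι → ℝ) (D : ℕ) : Finset (Finset ι) :=
  (tets u b).filter fun t => ((big u b D).filter fun x => x ⊆ t).card ≤ 1

theorem big_two {D : ℕ} : ∀ x ∈ big u b D, x.card = 2 := fun x hx =>
  (mem_faces.mp (mem_filter.mp hx).1).1

theorem faces_two_le : 2 * (faces u b 2).card ≤ Fintype.card ι * (Fintype.card ι - 1) := by
  have h1 : (faces u b 2).card ≤ (Fintype.card ι).choose 2 := by
    rw [← card_univ, ← card_powersetCard]
    exact card_le_card (filter_subset _ _)
  rw [Nat.choose_two_right] at h1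
  have h2 := Nat.div_mul_le_self (Fintype.card ι * (Fintype.card ι - 1)) 2
  omega

theorem big_card (h : SP u b) (D : ℕ) :
    (big u b D).card * D ≤ 3 * (Fintype.card ι * (Fintype.card ι + 1)) := by
  have h1 : (big u b D).card * D ≤ ∑ x ∈ big u b D, size u b x := by
    rw [← smul_eq_mul, ← sum_const]
    exact sum_le_sum fun x hx => (mem_filter.mp hx).2
  have h2 : ∑ x ∈ big u b D, size u b x ≤ ∑ x ∈ faces u b 2, size u b x :=
    sum_le_sum_of_subset (filter_subset _ _)
  have h3 : ∑ x ∈ faces u b 2, size u b x = 6 * (tets u b).card := by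
    rw [sum_size, sum_congr rfl (fun t ht => six ht), sum_const, smul_eq_mul, mul_comm]
  have h4 := f0_le h
  have h5 := faces_two_le (u := u) (b := b)
  have h6 : Fintype.card ι * (Fintype.card ι - 1) + 2 * Fintype.card ι =
      Fintype.card ι * (Fintype.card ι + 1) := by
    rcases Nat.eq_zero_or_pos (Fintype.card ι) with h7 | h7
    · rw [h7]
    · obtain ⟨k, hk⟩ : ∃ k, Fintype.card ι = k + 1 := ⟨Fintype.card ι - 1, by omega⟩
      rw [hk, Nat.add_sub_cancel]
      ring
  omega

theorem bad_card (h : SP u b) (D : ℕ) :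
    (bad u b (big u b D)).card ≤ (few u b D).card + 18 * (big u b D).card := by
  classical
  have h2 := adj_card h (M := big u b D) big_two
  have h3 : (bad u b (big u b D)).card ≤ (few u b D).card +
      ((tets u b).filter fun t => Adj (big u b D) t).card := by
    refine (card_le_card ?_).trans (card_union_le _ _)
    intro t ht
    rw [bad, mem_filter] at ht
    rw [mem_union, few, mem_filter, mem_filter]
    by_cases hf : ((big u b D).filter fun x => x ⊆ t).card ≤ 1
    · exact Or.inl ⟨ht.1, hf⟩
    · exact Or.inr ⟨ht.1, adj_of big_two (mem_tets.mp ht.1).1 ht.2 (by omega)⟩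
  omega

/-- Few non-4-gons if most vertices are on two large 2-faces. -/
theorem partI (h : SP u b) (D : ℕ) :
    (nonq u b).card ≤ 4 * Fintype.card ι + 14 * (few u b D).card + 257 * (big u b D).card := by
  have h1 := marking h (M := big u b D) (filter_subset _ _)
  have h2 := bad_card h D
  omega

open Classical in
/-- The vertices of the small 2-faces which are not 4-gons. -/
noncomputable def nrq (u : ι → E4) (b : ι → ℝ) (D : ℕ) : Finset (Finset ι) :=
  (tets u b).filter fun t => ∃ x ∈ nonq u b, size u b x < D ∧ x ⊆ t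

theorem nrq_card (D : ℕ) : (nrq u b D).card ≤ (nonq u b).card * (D - 1) := by
  classical
  have h1 : nrq u b D ⊆ ((nonq u b).filter fun x => size u b x < D).biUnion fun x =>
      (tets u b).filter fun t => x ⊆ t := by
    intro t ht
    rw [nrq, mem_filter] at ht
    obtain ⟨htT, x, hx, hxD, hxt⟩ := ht
    rw [mem_biUnion]
    exact ⟨x, mem_filter.mpr ⟨hx, hxD⟩, mem_filter.mpr ⟨htT, hxt⟩⟩
  refine (card_le_card h1).trans (card_biUnion_le.trans ?_)
  calc ∑ x ∈ (nonq u b).filter (fun x => size u b x < D), ((tets u b).filter fun t => x ⊆ t).card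
      ≤ ∑ x ∈ (nonq u b).filter (fun x => size u b x < D), (D - 1) := by
        apply sum_le_sum
        intro x hx
        have h2 := (mem_filter.mp hx).2
        change size u b x ≤ D - 1
        omega
    _ = ((nonq u b).filter fun x => size u b x < D).card * (D - 1) := by
        rw [sum_const, smul_eq_mul]
    _ ≤ _ := Nat.mul_le_mul_right _ (card_le_card (filter_subset _ _))

open Classical in
/-- The weight of a vertex. -/
theorem weight {D : ℕ} {t : Finset ι} (ht : t ∈ tets u b) :
    (1 : ℚ) + (if ((big u b D).filter fun x => x ⊆ t).card ≤ 1 then 1 / 4 else 0) ≤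
      ∑ x ∈ (faces u b 2).filter (fun x => x ⊆ t), (1 : ℚ) / size u b x +
        (if t ∈ nrq u b D then 5 / 4 else 0) + (if Adj (big u b D) t then 1 else 0) := by
  classical
  have h0 : (0 : ℚ) ≤ ∑ x ∈ (faces u b 2).filter (fun x => x ⊆ t), (1 : ℚ) / size u b x :=
    sum_nonneg fun x _ => by positivity
  by_cases h1 : t ∈ nrq u b D
  · have h2 : (0 : ℚ) ≤ (if Adj (big u b D) t then 1 else 0) := by split_ifs <;> norm_num
    rw [if_pos h1]
    split_ifs <;> linarith
  have h3 : (6 - ((big u b D).filter fun x => x ⊆ t).card : ℚ) / 4 ≤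
      ∑ x ∈ (faces u b 2).filter (fun x => x ⊆ t), (1 : ℚ) / size u b x := by
    have h4 : ∑ x ∈ ((faces u b 2).filter (fun x => x ⊆ t)) \
        ((big u b D).filter fun x => x ⊆ t), (1 : ℚ) / size u b x ≤
        ∑ x ∈ (faces u b 2).filter (fun x => x ⊆ t), (1 : ℚ) / size u b x :=
      sum_le_sum_of_subset_of_nonneg sdiff_subset fun x _ _ => by positivity
    refine le_trans (le_of_eq ?_) h4
    have h5 : ∀ x ∈ ((faces u b 2).filter (fun x => x ⊆ t)) \
        ((big u b D).filter fun x => x ⊆ t), (1 : ℚ) / size u b x = 1 / 4 := by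
      intro x hx
      rw [mem_sdiff, mem_filter, mem_filter, big, mem_filter] at hx
      have h6 : size u b x < D := by
        by_contra hcon
        exact hx.2 ⟨⟨hx.1.1, by omega⟩, hx.1.2⟩
      have h7 : size u b x = 4 := by
        by_contra hcon
        apply h1
        rw [nrq, mem_filter]
        exact ⟨ht, x, mem_filter.mpr ⟨hx.1.1, hcon⟩, h6, hx.1.2⟩
      rw [h7]
      norm_num
    rw [sum_congr rfl h5, sum_const, nsmul_eq_mul]
    have h6 : ((big u b D).filter fun x => x ⊆ t) ⊆ (faces u b 2).filter (fun x => x ⊆ t) :=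
      filter_subset_filter _ (filter_subset _ _)
    have h7 := card_sdiff_add_card_eq_card h6
    rw [six ht] at h7
    have h8 : (((((faces u b 2).filter (fun x => x ⊆ t)) \
        ((big u b D).filter fun x => x ⊆ t)).card : ℕ) : ℚ) =
        6 - ((big u b D).filter fun x => x ⊆ t).card := by
      rw [eq_sub_iff_add_eq]
      exact_mod_cast h7
    rw [h8]
    ring
  rw [if_neg h1]
  by_cases hf : ((big u b D).filter fun x => x ⊆ t).card ≤ 1
  · rw [if_pos hf]
    have h2 : (0 : ℚ) ≤ (if Adj (big u b D) t then 1 else 0) := by split_ifs <;> norm_num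
    have h4 : (((big u b D).filter fun x => x ⊆ t).card : ℚ) ≤ 1 := by exact_mod_cast hf
    linarith
  · rw [if_neg hf]
    by_cases hA : Adj (big u b D) t
    · rw [if_pos hA]
      linarith
    · rw [if_neg hA]
      have hG : Good (big u b D) t := by
        by_contra hG
        exact hA (adj_of big_two (mem_tets.mp ht).1 hG (by omega))
      obtain ⟨e, he, hc, hMe⟩ := hG
      have h5 : ((big u b D).filter fun x => x ⊆ t).card ≤ 2 := by
        rw [hMe]
        exact card_le_two
      have h4 : (((big u b D).filter fun x => x ⊆ t).card : ℚ) ≤ 2 := by exact_mod_cast h5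
      linarith

/-- Most vertices are on two large 2-faces if there are few non-4-gons. -/
theorem partII (h : SP u b) (D : ℕ) :
    (few u b D).card ≤ 8 * Fintype.card ι + 5 * ((nonq u b).card * (D - 1)) +
      72 * (big u b D).card := by
  classical
  have h1 : ∑ t ∈ tets u b, ∑ x ∈ (faces u b 2).filter (fun x => x ⊆ t), (1 : ℚ) / size u b x =
      (faces u b 2).card := by
    have h2 : ∑ t ∈ tets u b, ∑ x ∈ (faces u b 2).filter (fun x => x ⊆ t),
        (1 : ℚ) / size u b x = ∑ x ∈ faces u b 2, ∑ t ∈ (tets u b).filter (fun t => x ⊆ t),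
          (1 : ℚ) / size u b x := by
      rw [sum_comm' (t' := faces u b 2) (s' := fun x => (tets u b).filter (fun t => x ⊆ t))]
      intro t x
      rw [mem_filter, mem_filter]
      tauto
    rw [h2, card_eq_sum_ones]
    push_cast
    apply sum_congr rfl
    intro x hx
    rw [sum_const, nsmul_eq_mul]
    change ((size u b x : ℕ) : ℚ) * (1 / size u b x) = 1
    have h3 := three_le_size h hx
    have h4 : ((size u b x : ℕ) : ℚ) ≠ 0 := by
      have : size u b x ≠ 0 := by omega
      exact_mod_cast this
    field_simp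
  have h2 := sum_le_sum fun t ht => weight (u := u) (b := b) (D := D) (t := t) ht
  rw [sum_add_distrib, sum_add_distrib, sum_add_distrib, h1, sum_const, nsmul_eq_mul, mul_one,
    ← sum_filter, ← sum_filter, ← sum_filter, sum_const, sum_const, sum_const, nsmul_eq_mul,
    nsmul_eq_mul, nsmul_eq_mul] at h2
  have h3 : (tets u b).filter (fun t => t ∈ nrq u b D) = nrq u b D := by
    ext t
    rw [mem_filter]
    constructor
    · exact fun h => h.2
    · exact fun h => ⟨(mem_filter.mp h).1, h⟩
  rw [h3] at h2
  change _ + ((few u b D).card : ℚ) * (1 / 4) ≤ _ at h2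
  have h4 : ((faces u b 2).card : ℚ) ≤ (tets u b).card + 2 * Fintype.card ι := by
    exact_mod_cast f2_le h
  have h5 : ((nrq u b D).card : ℚ) ≤ (nonq u b).card * ((D - 1 : ℕ) : ℚ) := by
    exact_mod_cast nrq_card D
  have h6 : ((((tets u b).filter fun t => Adj (big u b D) t).card : ℕ) : ℚ) ≤
      18 * (big u b D).card := by
    exact_mod_cast adj_card h (M := big u b D) big_two
  have h7 : ((few u b D).card : ℚ) ≤ 8 * Fintype.card ι +
      5 * ((nonq u b).card * ((D - 1 : ℕ) : ℚ)) + 72 * (big u b D).card := by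
    linarith
  exact_mod_cast h7

theorem partIII (h : SP u b) (D : ℕ) :
    (bad u b (big u b D)).card ≤ 8 * Fintype.card ι + 5 * ((nonq u b).card * (D - 1)) +
      90 * (big u b D).card := by
  have h1 := bad_card h D
  have h2 := partII h D
  omega

end QMark
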