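import Pool.Agent.QMark.Cone

/-!
# Vertices and 2-faces as sets

Working file of helper56 for MP_f8fadf_co.
-/

namespace QMark

open Finset
open scoped InnerProductSpace

variable {ι : Type*} [Fintype ι] [DecidableEq ι] {u : ι → E4} {b : ι → ℝ}

/-- The intersection of the facets `i` and `j`. -/
def Two (u : ι → E4) (b : ι → ℝ) (i j : ι) : Set E4 :=
  {p | p ∈ Poly u b ∧ ⟪u i, p⟫_ℝ = b i ∧ ⟪u j, p⟫_ℝ = b j}

/-- At a point with at most three equalities one can move in both directions. -/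
theorem not_vertex (h : SP u b) {p : E4} (hp : p ∈ Poly u b) (h4 : (act u b p).card ≠ 4) :
    ∃ (d : E4) (t t' : ℝ), d ≠ 0 ∧ 0 < t ∧ 0 < t' ∧ (∀ i ∈ act u b p, ⟪u i, d⟫_ℝ = 0) ∧
      p + t • d ∈ Poly u b ∧ p + (-t') • d ∈ Poly u b ∧
      p ∈ openSegment ℝ (p + t • d) (p + (-t') • d) := by
  have hle := h.simple p hp
  have hlt : Module.finrank ℝ (Submodule.span ℝ (Set.range fun i : act u b p => u i)) < 4 := by
    have h1 := finrank_range_le_card (R := ℝ) (fun i : act u b p => u i)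
    rw [Set.finrank, Fintype.card_coe] at h1
    omega
  obtain ⟨d, hd, hd0⟩ := exists_orth _ hlt
  have hd1 : ∀ i ∈ act u b p, ⟪u i, d⟫_ℝ = 0 := fun i hi => hd0 ⟨i, hi⟩
  obtain ⟨t, ht, hq, -⟩ := move h hp hd fun i hi => (hd1 i hi).le
  obtain ⟨t', ht', hq', -⟩ := move h hp (neg_ne_zero.mpr hd) fun i hi => by
    rw [inner_neg_right, hd1 i hi, neg_zero]
  have hq2 : p + (-t') • d ∈ Poly u b := by
    rw [show (-t') • d = t' • -d by rw [neg_smul, smul_neg]]
    exact hq'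
  refine ⟨d, t, t', hd, ht, ht', hd1, hq, hq2, ?_⟩
  have htt : 0 < t + t' := by linarith
  refine ⟨t' / (t + t'), t / (t + t'), div_pos ht' htt, div_pos ht htt, ?_, ?_⟩
  · rw [← add_div, add_comm t' t, div_self htt.ne']
  · have e1 : t' / (t + t') + t / (t + t') = 1 := by
      rw [← add_div, add_comm t' t, div_self htt.ne']
    rw [smul_add, smul_add, smul_smul, smul_smul]
    have e2 : t' / (t + t') * t + t / (t + t') * (-t') = 0 := by ring
    calc (t' / (t + t')) • p + (t' / (t + t') * t) • d +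
        ((t / (t + t')) • p + (t / (t + t') * (-t')) • d)
        = (t' / (t + t') + t / (t + t')) • p +
          (t' / (t + t') * t + t / (t + t') * (-t')) • d := by
          rw [add_smul, add_smul]; abel
      _ = p := by rw [e1, e2, one_smul, zero_smul, add_zero]

/-- The extreme points of a face. -/
theorem extreme_face (h : SP u b) (x : Finset ι) {p : E4} :
    p ∈ Set.extremePoints ℝ {p | p ∈ Poly u b ∧ ∀ i ∈ x, ⟪u i, p⟫_ℝ = b i} ↔
      p ∈ Poly u b ∧ (act u b p).card = 4 ∧ x ⊆ act u b p := by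
  constructor
  · rintro ⟨⟨hp, hx⟩, hext⟩
    refine ⟨hp, ?_, fun i hi => mem_act.mpr (hx i hi)⟩
    by_contra h4
    obtain ⟨d, t, t', hd, ht, ht', hd1, hq, hq2, hseg⟩ := not_vertex h hp h4
    have hm : ∀ s : ℝ, p + s • d ∈ Poly u b →
        p + s • d ∈ {p | p ∈ Poly u b ∧ ∀ i ∈ x, ⟪u i, p⟫_ℝ = b i} := by
      intro s hs
      refine ⟨hs, fun i hi => ?_⟩
      rw [inner_add_smul, hd1 i (mem_act.mpr (hx i hi)), mul_zero, add_zero, hx i hi]
    have h1 := hext (hm t hq) (hm (-t') hq2) hseg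
    have h2 : t • d = 0 := by simpa using h1
    rcases smul_eq_zero.mp h2 with h3 | h3
    · exact ht.ne' h3
    · exact hd h3
  · rintro ⟨hp, h4, hx⟩
    refine ⟨⟨hp, fun i hi => mem_act.mp (hx hi)⟩, ?_⟩
    intro q hq r hr hseg
    obtain ⟨s, t, hs, ht, hst, heq⟩ := hseg
    apply eq_of_act_sub h hp h4
    have h2 : q + t • (r - q) = p := by
      rw [← heq, eq_sub_iff_add_eq.mpr hst, sub_smul, smul_sub, one_smul]
      abel
    intro i hi
    rw [← h2, act_seg hq.1 hr.1 ht (by linarith)] at hi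
    exact hi.1

theorem extreme_poly (h : SP u b) {p : E4} :
    p ∈ Set.extremePoints ℝ (Poly u b) ↔ p ∈ Poly u b ∧ (act u b p).card = 4 := by
  have h1 := extreme_face h ∅ (p := p)
  have h2 : {p | p ∈ Poly u b ∧ ∀ i ∈ (∅ : Finset ι), ⟪u i, p⟫_ℝ = b i} = Poly u b := by
    ext q
    simp
  rw [h2] at h1
  rw [h1]
  simp

theorem two_eq (i j : ι) : Two u b i j =
    {p | p ∈ Poly u b ∧ ∀ k ∈ ({i, j} : Finset ι), ⟪u k, p⟫_ℝ = b k} := by
  ext p
  simp [Two]

/-- The number of vertices of a 2-face. -/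
theorem ncard_two (h : SP u b) (i j : ι) :
    (Set.extremePoints ℝ (Two u b i j)).ncard = size u b {i, j} := by
  classical
  rw [size, ← Set.ncard_coe_finset, two_eq]
  apply Set.ncard_congr (fun p _ => act u b p)
  · intro p hp
    rw [extreme_face h] at hp
    rw [mem_coe, mem_filter, mem_tets]
    exact ⟨⟨hp.2.1, p, hp.1, rfl⟩, hp.2.2⟩
  · intro p q hp hq hpq
    rw [extreme_face h] at hp hq
    exact eq_of_act_sub h hq.1 hq.2.1 (by rw [hpq])
  · intro t ht
    rw [mem_coe, mem_filter, mem_tets] at ht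
    obtain ⟨⟨h4, p, hp, rfl⟩, hx⟩ := ht
    exact ⟨p, (extreme_face h _).mpr ⟨hp, h4, hx⟩, rfl⟩

theorem nonempty_two (h : SP u b) {i j : ι} (hij : i ≠ j) :
    (Two u b i j).Nonempty ↔ ({i, j} : Finset ι) ∈ faces u b 2 := by
  constructor
  · rintro ⟨p, hp, h1, h2⟩
    obtain ⟨t, ht, hpt⟩ := exists_tet h hp
    refine mem_faces.mpr ⟨card_pair hij, t, ht, ?_⟩
    intro k hk
    rw [mem_insert, mem_singleton] at hk
    rcases hk with rfl | rfl
    · exact hpt (mem_act.mpr h1)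
    · exact hpt (mem_act.mpr h2)
  · intro hx
    obtain ⟨-, t, ht, hxt⟩ := mem_faces.mp hx
    obtain ⟨-, p, hp, rfl⟩ := mem_tets.mp ht
    exact ⟨p, hp, mem_act.mp (hxt (by simp)), mem_act.mp (hxt (by simp))⟩

section fin

variable {n : ℕ} {u : Fin n → E4} {b : Fin n → ℝ}

theorem pair_inj {a c : Fin n × Fin n} (ha : a.1 < a.2) (hc : c.1 < c.2)
    (h : ({a.1, a.2} : Finset (Fin n)) = {c.1, c.2}) : a = c := by
  have h1 : a.1 ∈ ({c.1, c.2} : Finset (Fin n)) := by rw [← h]; simp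
  have h2 : a.2 ∈ ({c.1, c.2} : Finset (Fin n)) := by rw [← h]; simp
  simp only [mem_insert, mem_singleton] at h1 h2
  rcases h1 with h1 | h1 <;> rcases h2 with h2 | h2
  · rw [h1, h2] at ha
    exact absurd ha (lt_irrefl _)
  · exact Prod.ext h1 h2
  · rw [h1, h2] at ha
    exact absurd (ha.trans hc) (lt_irrefl _)
  · rw [h1, h2] at ha
    exact absurd ha (lt_irrefl _)

theorem exists_pair {x : Finset (Fin n)} (hx : x.card = 2) :
    ∃ a : Fin n × Fin n, a.1 < a.2 ∧ x = {a.1, a.2} := by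
  obtain ⟨i, j, hij, rfl⟩ := card_eq_two.mp hx
  rcases lt_or_gt_of_ne hij with h | h
  · exact ⟨(i, j), h, rfl⟩
  · exact ⟨(j, i), h, pair_comm _ _⟩

/-- The pairs `i < j` and the 2-sets. -/
theorem card_pairs (F : Finset (Finset (Fin n))) (hF : ∀ x ∈ F, x.card = 2)
    (S : Finset (Fin n × Fin n)) (hS : ∀ a, a ∈ S ↔ a.1 < a.2 ∧ ({a.1, a.2} : Finset (Fin n)) ∈ F) :
    S.card = F.card := by
  apply card_bij (fun a _ => ({a.1, a.2} : Finset (Fin n)))
  · intro a ha
    exact ((hS a).mp ha).2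
  · intro a ha c hc hac
    exact pair_inj ((hS a).mp ha).1 ((hS c).mp hc).1 hac
  · intro x hx
    obtain ⟨a, ha, rfl⟩ := exists_pair (hF x hx)
    exact ⟨a, (hS a).mpr ⟨ha, hx⟩, rfl⟩

/-- The vertices and their active sets. -/
theorem ncard_vertices (h : SP u b) (V : Set E4) (T : Finset (Finset (Fin n)))
    (hT : ∀ t ∈ T, t ∈ tets u b)
    (hV : ∀ v, v ∈ V ↔ v ∈ Set.extremePoints ℝ (Poly u b) ∧ act u b v ∈ T) :
    V.ncard = T.card := by
  rw [← Set.ncard_coe_finset]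
  apply Set.ncard_congr (fun p _ => act u b p)
  · intro p hp
    exact ((hV p).mp hp).2
  · intro p q hp hq hpq
    have h1 := (extreme_poly h).mp ((hV q).mp hq).1
    exact eq_of_act_sub h h1.1 h1.2 (by rw [hpq])
  · intro t ht
    obtain ⟨h4, p, hp, hpa⟩ := mem_tets.mp (hT t ht)
    refine ⟨p, (hV p).mpr ⟨(extreme_poly h).mpr ⟨hp, by rw [hpa, h4]⟩, ?_⟩, hpa⟩
    rw [hpa]
    exact ht

end fin

end QMark
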