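import Pool.Agent.QMark.Big

/-!
# Facets in cones

Working file of helper56 for MP_f8fadf_co.
-/

namespace QMark

open Finset
open scoped InnerProductSpace

variable {ι : Type*} [Fintype ι] [DecidableEq ι] {u : ι → E4} {b : ι → ℝ}
variable {γ : Type*} [Fintype γ] [DecidableEq γ]

/-- Each class has a common projective point. -/
def Cones (u : ι → E4) (b : ι → ℝ) (κ : ι → γ) : Prop :=
  ∀ j : γ, ∃ (z : E4) (ζ : ℝ), (z ≠ 0 ∨ ζ ≠ 0) ∧ ∀ i, κ i = j → ⟪u i, z⟫_ℝ = ζ * b i

/-- The class `j`. -/
def cls (κ : ι → γ) (j : γ) : Finset ι := univ.filter fun i => κ i = j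

omit [DecidableEq ι] [Fintype γ] in
theorem mem_cls {κ : ι → γ} {j : γ} {i : ι} : i ∈ cls κ j ↔ κ i = j := by
  simp [cls]

omit [DecidableEq ι] in
theorem sum_cls (κ : ι → γ) : ∑ j : γ, (cls κ j).card = Fintype.card ι := by
  have h := card_eq_sum_card_fiberwise (f := κ) (s := (univ : Finset ι)) (t := (univ : Finset γ))
    (fun _ _ => mem_coe.mpr (mem_univ _))
  rw [card_univ] at h
  exact h.symm

/-- The 2-faces with both facets in one class. -/
noncomputable def mono (u : ι → E4) (b : ι → ℝ) (κ : ι → γ) : Finset (Finset ι) :=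
  univ.biUnion fun j : γ => (faces u b 2).filter fun x => x ⊆ cls κ j

theorem mono_card (h : SP u b) {κ : ι → γ} (hc : Cones u b κ) :
    2 * (mono u b κ).card ≤ 9 * Fintype.card ι := by
  have h1 : (mono u b κ).card ≤ ∑ j : γ, ((faces u b 2).filter fun x => x ⊆ cls κ j).card :=
    card_biUnion_le
  have h2 : ∑ j : γ, 2 * ((faces u b 2).filter fun x => x ⊆ cls κ j).card ≤
      ∑ j : γ, 9 * (cls κ j).card := by
    apply sum_le_sum
    intro j _
    obtain ⟨z, ζ, hz, hL⟩ := hc j
    exact cone_two h hz fun i hi => hL i (mem_cls.mp hi)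
  rw [← mul_sum, ← mul_sum, sum_cls] at h2
  omega

/-- The vertices on three facets of one class. -/
noncomputable def tri (u : ι → E4) (b : ι → ℝ) (κ : ι → γ) : Finset (Finset ι) :=
  univ.biUnion fun j : γ => ((faces u b 3).filter fun x => x ⊆ cls κ j).biUnion fun y =>
    (tets u b).filter fun t => y ⊆ t

theorem tri_card (h : SP u b) {κ : ι → γ} (hc : Cones u b κ) :
    (tri u b κ).card ≤ 7 * Fintype.card ι := by
  refine card_biUnion_le.trans ?_
  rw [← sum_cls κ, mul_sum]
  apply sum_le_sum
  intro j _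
  refine card_biUnion_le.trans ?_
  rw [sum_congr rfl (fun y hy => ?_)]
  · obtain ⟨z, ζ, hz, hL⟩ := hc j
    rw [sum_const, smul_eq_mul, mul_comm]
    exact cone_three h hz fun i hi => hL i (mem_cls.mp hi)
  · rw [mem_filter, mem_faces] at hy
    obtain ⟨⟨hy3, t, ht, hyt⟩, -⟩ := hy
    exact card_three h hy3 ht hyt

/-- The vertices which meet at least three classes. -/
noncomputable def three (u : ι → E4) (b : ι → ℝ) (κ : ι → γ) : Finset (Finset ι) :=
  (tets u b).filter fun t => 3 ≤ (t.image κ).card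

theorem good_of {κ : ι → γ} {t : Finset ι} (ht : t ∈ tets u b) (h3 : (t.image κ).card ≤ 2)
    (htri : t ∉ tri u b κ) : Good (mono u b κ) t := by
  have hc := (mem_tets.mp ht).1
  have hfib : ∀ j : γ, (t.filter fun i => κ i = j).card ≤ 2 := by
    intro j
    by_contra hcon
    push Not at hcon
    obtain ⟨y, hy, hyc⟩ := exists_subset_card_eq (n := 3) hcon
    apply htri
    simp only [tri, mem_biUnion, mem_univ, true_and, mem_filter]
    refine ⟨j, y, ⟨mem_faces.mpr ⟨hyc, t, ht, hy.trans (filter_subset _ _)⟩, ?_⟩, ht,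
      hy.trans (filter_subset _ _)⟩
    intro i hi
    exact mem_cls.mpr (mem_filter.mp (hy hi)).2
  obtain ⟨i1, hi1⟩ := card_pos.mp (show 0 < t.card by omega)
  set e := t.filter fun i => κ i = κ i1 with he
  have het : e ⊆ t := filter_subset _ _
  have he2 : e.card ≤ 2 := hfib _
  obtain ⟨i2, hi2⟩ := card_pos.mp (show 0 < (t \ e).card by
    rw [card_sdiff_of_subset het]
    omega)
  rw [mem_sdiff] at hi2
  have hne : κ i2 ≠ κ i1 := fun h => hi2.2 (mem_filter.mpr ⟨hi2.1, h⟩)
  set e' := t.filter fun i => κ i = κ i2 with he'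
  have he2' : e'.card ≤ 2 := hfib _
  have hee : e' = t \ e := by
    ext i
    rw [he', he, mem_sdiff, mem_filter, mem_filter]
    constructor
    · rintro ⟨h1, h2⟩
      refine ⟨h1, fun h4 => hne ?_⟩
      rw [← h2, h4.2]
    · rintro ⟨h1, h2⟩
      refine ⟨h1, ?_⟩
      by_contra h4
      have h5 : ({κ i1, κ i2, κ i} : Finset γ) ⊆ t.image κ := by
        intro j hj
        simp only [mem_insert, mem_singleton] at hj
        rcases hj with rfl | rfl | rfl
        · exact mem_image_of_mem _ hi1
        · exact mem_image_of_mem _ hi2.1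
        · exact mem_image_of_mem _ h1
      have h6 : ({κ i1, κ i2, κ i} : Finset γ).card = 3 := by
        rw [card_eq_three]
        exact ⟨_, _, _, hne.symm, fun h => h2 ⟨h1, h.symm⟩, fun h => h4 h.symm, rfl⟩
      have h7 := card_le_card h5
      omega
  have hsum := card_sdiff_add_card_eq_card het
  rw [← hee, hc] at hsum
  have hec : e.card = 2 := by omega
  have hec' : e'.card = 2 := by omega
  refine ⟨e, het, hec, ?_⟩
  rw [← hee]
  ext x
  simp only [mono, mem_filter, mem_biUnion, mem_univ, true_and, mem_insert, mem_singleton]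
  constructor
  · rintro ⟨⟨j, hx, hxj⟩, hxt⟩
    have hx2 := (mem_faces.mp hx).1
    have hxf : x ⊆ t.filter fun i => κ i = j := fun i hi =>
      mem_filter.mpr ⟨hxt hi, mem_cls.mp (hxj hi)⟩
    have hxe : x = t.filter fun i => κ i = j :=
      eq_of_subset_of_card_le hxf (by rw [hx2]; exact hfib j)
    obtain ⟨i, hi⟩ := card_pos.mp (show 0 < x.card by omega)
    have hij : κ i = j := mem_cls.mp (hxj hi)
    by_cases hie : i ∈ e
    · left
      rw [hxe, he, ← hij, (mem_filter.mp hie).2]
    · right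
      have h1 : i ∈ e' := by rw [hee]; exact mem_sdiff.mpr ⟨hxt hi, hie⟩
      rw [hxe, he', ← hij, (mem_filter.mp h1).2]
  · rintro (rfl | rfl)
    · refine ⟨⟨κ i1, mem_faces.mpr ⟨hec, t, ht, het⟩, ?_⟩, het⟩
      intro i hi
      exact mem_cls.mpr (mem_filter.mp hi).2
    · have h1 : e' ⊆ t := filter_subset _ _
      refine ⟨⟨κ i2, mem_faces.mpr ⟨hec', t, ht, h1⟩, ?_⟩, h1⟩
      intro i hi
      exact mem_cls.mpr (mem_filter.mp hi).2

/-- **The theorem on cones.** -/
theorem cones (h : SP u b) {κ : ι → γ} (hc : Cones u b κ) :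
    2 * (nonq u b).card ≤ 249 * Fintype.card ι + 28 * (three u b κ).card := by
  classical
  have hM : mono u b κ ⊆ faces u b 2 := by
    intro x hx
    simp only [mono, mem_biUnion, mem_univ, true_and, mem_filter] at hx
    obtain ⟨j, hx, -⟩ := hx
    exact hx
  have h1 := marking h hM
  have h2 := mono_card h hc
  have h3 := tri_card h hc
  have h4 : (bad u b (mono u b κ)).card ≤ (three u b κ).card + (tri u b κ).card := by
    refine (card_le_card ?_).trans (card_union_le _ _)
    intro t ht
    rw [bad, mem_filter] at ht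
    rw [mem_union, three, mem_filter]
    by_cases h5 : 3 ≤ (t.image κ).card
    · exact Or.inl ⟨ht.1, h5⟩
    · by_cases h6 : t ∈ tri u b κ
      · exact Or.inr h6
      · exact absurd (good_of ht.1 (by omega) h6) ht.2
  omega

end QMark
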