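import Pool.Agent.QMark.Tet

/-!
# Counting faces with a generic linear functional

Working file of helper56 for MP_f8fadf_co.
-/

namespace QMark

open Finset
open scoped InnerProductSpace

variable {ι : Type*} [Fintype ι] [DecidableEq ι] {u : ι → E4} {b : ι → ℝ}

/-- A generic functional with its coefficients at the vertices. -/
structure Gen (u : ι → E4) (b : ι → ℝ) where
  w : E4
  c : Finset ι → ι → ℝ
  hw : ∀ t ∈ tets u b, ∑ i ∈ t, c t i • u i = w
  hc : ∀ t ∈ tets u b, ∀ i ∈ t, c t i ≠ 0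

theorem span_top (h : SP u b) {t : Finset ι} (ht : t ∈ tets u b) :
    Submodule.span ℝ (u '' (t : Set ι)) = ⊤ := by
  obtain ⟨hc, p, hp, rfl⟩ := mem_tets.mp ht
  have hne : Nonempty (act u b p) := by
    rw [nonempty_coe_sort, ← card_pos, hc]
    norm_num
  have h1 := (indep h hp).span_eq_top_of_card_eq_finrank (by
    rw [Fintype.card_coe, hc, finrank_euclideanSpace_fin])
  rw [Set.image_eq_range]
  exact h1

theorem exists_gen (h : SP u b) : Nonempty (Gen u b) := by
  classical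
  have hex : ∃ w : E4, ∀ t ∈ tets u b, ∀ i ∈ t,
      w ∉ Submodule.span ℝ (u '' ((t.erase i : Finset ι) : Set ι)) := by
    by_contra hcon
    push Not at hcon
    let J := {q : Finset ι × ι // q.1 ∈ tets u b ∧ q.2 ∈ q.1}
    obtain ⟨q, hq⟩ := Subspace.exists_eq_top_of_iUnion_eq_univ
      (p := fun q : J => Submodule.span ℝ (u '' ((q.1.1.erase q.1.2 : Finset ι) : Set ι))) (by
        rw [Set.eq_univ_iff_forall]
        intro w
        obtain ⟨t, ht, i, hi, hw⟩ := hcon w
        exact Set.mem_iUnion.mpr ⟨⟨(t, i), ht, hi⟩, hw⟩)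
    have h3 : (q.1.1.erase q.1.2).card = 3 := by
      rw [card_erase_of_mem q.2.2, (mem_tets.mp q.2.1).1]
    have h4 := finrank_span_finset_le_card (R := ℝ) ((q.1.1.erase q.1.2).image u)
    rw [coe_image] at h4
    have h5 : Module.finrank ℝ (Submodule.span ℝ (u '' ((q.1.1.erase q.1.2 : Finset ι) : Set ι))) =
        4 := by
      rw [hq, finrank_top, finrank_euclideanSpace_fin]
    have h6 := card_image_le (s := q.1.1.erase q.1.2) (f := u)
    rw [Set.finrank] at h4
    omega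
  obtain ⟨w, hw⟩ := hex
  have hc : ∀ t : Finset ι, ∃ c : ι → ℝ, t ∈ tets u b → ∑ i ∈ t, c i • u i = w := by
    intro t
    by_cases ht : t ∈ tets u b
    · have h1 : w ∈ Submodule.span ℝ (u '' (t : Set ι)) := by
        rw [span_top h ht]
        exact Submodule.mem_top
      obtain ⟨c, hc⟩ := (Submodule.mem_span_image_finset_iff_exists_fun' ℝ).mp h1
      exact ⟨c, fun _ => hc⟩
    · exact ⟨0, fun hc => absurd hc ht⟩
  choose c hc using hc
  refine ⟨⟨w, c, hc, ?_⟩⟩
  intro t ht i hi hci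
  apply hw t ht i hi
  rw [Submodule.mem_span_image_finset_iff_exists_fun']
  refine ⟨c t, ?_⟩
  rw [← hc t ht, ← add_sum_erase t _ hi, hci, zero_smul, zero_add]

namespace Gen

/-- The opposite functional. -/
def neg (g : Gen u b) : Gen u b where
  w := -g.w
  c := fun t i => -g.c t i
  hw := fun t ht => by
    rw [← g.hw t ht, ← sum_neg_distrib]
    exact sum_congr rfl fun i _ => neg_smul _ _
  hc := fun t ht i hi => neg_ne_zero.mpr (g.hc t ht i hi)

/-- The increasing directions at a vertex. -/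
noncomputable def U (g : Gen u b) (t : Finset ι) : Finset ι := t.filter fun i => g.c t i < 0

theorem mem_U {g : Gen u b} {t : Finset ι} {i : ι} : i ∈ g.U t ↔ i ∈ t ∧ g.c t i < 0 := by
  rw [U, mem_filter]

theorem neg_U (g : Gen u b) {t : Finset ι} (ht : t ∈ tets u b) : g.neg.U t = t \ g.U t := by
  ext i
  rw [mem_U, mem_sdiff, mem_U]
  constructor
  · rintro ⟨h1, h2⟩
    refine ⟨h1, fun h3 => ?_⟩
    have h4 : -g.c t i < 0 := h2
    linarith [h3.2]
  · rintro ⟨h1, h2⟩
    refine ⟨h1, ?_⟩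
    have h3 := g.hc t ht i h1
    have h4 : ¬ g.c t i < 0 := fun h5 => h2 ⟨h1, h5⟩
    change -g.c t i < 0
    have h5 : 0 < g.c t i := lt_of_le_of_ne (not_lt.mp h4) (Ne.symm h3)
    linarith

theorem phi (g : Gen u b) {t : Finset ι} (ht : t ∈ tets u b) {p : E4} (hpa : act u b p = t)
    (q : E4) : ⟪g.w, q⟫_ℝ - ⟪g.w, p⟫_ℝ = ∑ i ∈ t, g.c t i * (⟪u i, q⟫_ℝ - b i) := by
  rw [← g.hw t ht, sum_inner, sum_inner, ← sum_sub_distrib]
  apply sum_congr rfl
  intro i hi
  rw [inner_smul_left, inner_smul_left]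
  have h1 : ⟪u i, p⟫_ℝ = b i := mem_act.mp (by rw [hpa]; exact hi)
  rw [h1]
  simp only [conj_trivial]
  ring

theorem uniq (g : Gen u b) {t t' : Finset ι} (ht : t ∈ tets u b)
    (ht' : t' ∈ tets u b) {x : Finset ι} (hx : x ⊆ t) (hx' : x ⊆ t') (hU : t \ x ⊆ g.U t)
    (hU' : t' \ x ⊆ g.U t') : t = t' := by
  obtain ⟨hc, p, hp, hpa⟩ := mem_tets.mp ht
  obtain ⟨hc', p', hp', hpa'⟩ := mem_tets.mp ht'
  have key : ∀ {s s' : Finset ι} {q q' : E4}, s ∈ tets u b → act u b q = s → q' ∈ Poly u b →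
      act u b q' = s' → x ⊆ s' → s \ x ⊆ g.U s →
      ∀ i ∈ s, 0 ≤ g.c s i * (⟪u i, q'⟫_ℝ - b i) := by
    intro s s' q q' hs hqa hq' hqa' hxs hUs i hi
    by_cases hix : i ∈ x
    · have h1 : ⟪u i, q'⟫_ℝ = b i := mem_act.mp (by rw [hqa']; exact hxs hix)
      rw [h1, sub_self, mul_zero]
    · have h1 := (mem_U.mp (hUs (mem_sdiff.mpr ⟨hi, hix⟩))).2
      have h2 := hq' i
      exact mul_nonneg_of_nonpos_of_nonpos h1.le (by linarith)
  have k1 := key ht hpa hp' hpa' hx' hU
  have k2 := key ht' hpa' hp hpa hx hU'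
  have e1 := g.phi ht hpa p'
  have e2 := g.phi ht' hpa' p
  have n1 := sum_nonneg k1
  have n2 := sum_nonneg k2
  have z1 : ∑ i ∈ t, g.c t i * (⟪u i, p'⟫_ℝ - b i) = 0 := by linarith
  rw [sum_eq_zero_iff_of_nonneg k1] at z1
  apply eq_of_subset_of_card_le
  · intro i hi
    rw [← hpa', mem_act]
    rcases mul_eq_zero.mp (z1 i hi) with h1 | h1
    · exact absurd h1 (g.hc t ht i hi)
    · linarith
  · rw [hc, hc']

theorem exist (h : SP u b) (g : Gen u b) {t0 : Finset ι} (ht0 : t0 ∈ tets u b) {x : Finset ι}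
    (hx : x ⊆ t0) : ∃ t ∈ tets u b, x ⊆ t ∧ t \ x ⊆ g.U t := by
  have hpt : ∀ t ∈ tets u b, ∃ p ∈ Poly u b, act u b p = t := fun t ht => (mem_tets.mp ht).2
  choose! pt hpt1 hpt2 using hpt
  obtain ⟨t, ht, hmin⟩ := exists_min_image ((tets u b).filter fun t => x ⊆ t)
    (fun t => ⟪g.w, pt t⟫_ℝ) ⟨t0, mem_filter.mpr ⟨ht0, hx⟩⟩
  rw [mem_filter] at ht
  refine ⟨t, ht.1, ht.2, ?_⟩
  intro d hd
  rw [mem_sdiff] at hd
  rw [mem_U]
  refine ⟨hd.1, ?_⟩
  by_contra hcon
  obtain ⟨d', hd', hT, -⟩ := tet_flip h ht.1 hd.1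
  have hle := hmin _ (mem_filter.mpr ⟨hT, fun i hi =>
    mem_insert_of_mem (mem_erase.mpr ⟨fun e => hd.2 (e ▸ hi), ht.2 hi⟩)⟩)
  have hpos : 0 < g.c t d := lt_of_le_of_ne (not_lt.mp hcon) (g.hc t ht.1 d hd.1).symm
  have hphi := g.phi ht.1 (hpt2 t ht.1) (pt (insert d' (t.erase d)))
  rw [← add_sum_erase t _ hd.1, sum_eq_zero, add_zero] at hphi
  · have h1 := hpt1 _ hT d
    have h2 : ⟪u d, pt (insert d' (t.erase d))⟫_ℝ ≠ b d := by
      intro hc
      have h3 : d ∈ act u b (pt (insert d' (t.erase d))) := mem_act.mpr hc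
      rw [hpt2 _ hT, mem_insert] at h3
      rcases h3 with h3 | h3
      · exact hd' (h3 ▸ hd.1)
      · exact notMem_erase _ _ h3
    have h3 : ⟪u d, pt (insert d' (t.erase d))⟫_ℝ < b d := lt_of_le_of_ne h1 h2
    have h4 : g.c t d * (⟪u d, pt (insert d' (t.erase d))⟫_ℝ - b d) < 0 :=
      mul_neg_of_pos_of_neg hpos (by linarith)
    linarith
  · intro i hi
    have h3 : i ∈ act u b (pt (insert d' (t.erase d))) := by
      rw [hpt2 _ hT]
      exact mem_insert_of_mem hi
    rw [mem_act.mp h3, sub_self, mul_zero]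

theorem count (h : SP u b) (g : Gen u b) (z : Finset ι) {k : ℕ} (hk : k ≤ 4) :
    ((faces u b k).filter fun x => z ⊆ x).card =
      ∑ t ∈ (tets u b).filter (fun t => z ⊆ t), ((g.U t \ z).card).choose (4 - k) := by
  have h1 : ∑ t ∈ (tets u b).filter (fun t => z ⊆ t), ((g.U t \ z).card).choose (4 - k) =
      (((tets u b).filter fun t => z ⊆ t).sigma
        fun t => powersetCard (4 - k) (g.U t \ z)).card := by
    rw [card_sigma]
    exact sum_congr rfl fun t _ => (card_powersetCard _ _).symm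
  rw [h1]
  symm
  apply card_bij (fun q _ => q.1 \ q.2)
  · rintro ⟨t, s⟩ hq
    rw [mem_sigma, mem_filter, mem_powersetCard] at hq
    obtain ⟨⟨ht, hz⟩, hs, hsc⟩ := hq
    have hst : s ⊆ t := fun i hi => (mem_U.mp (mem_sdiff.mp (hs hi)).1).1
    rw [mem_filter, mem_faces]
    refine ⟨⟨?_, t, ht, sdiff_subset⟩, ?_⟩
    · rw [card_sdiff_of_subset hst, (mem_tets.mp ht).1]
      change 4 - s.card = k
      rw [show s.card = 4 - k from hsc]
      omega
    · intro i hi
      exact mem_sdiff.mpr ⟨hz hi, fun hc => (mem_sdiff.mp (hs hc)).2 hi⟩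
  · rintro ⟨t, s⟩ hq ⟨t', s'⟩ hq' heq
    rw [mem_sigma, mem_filter, mem_powersetCard] at hq hq'
    obtain ⟨⟨ht, hz⟩, hs, hsc⟩ := hq
    obtain ⟨⟨ht', hz'⟩, hs', hsc'⟩ := hq'
    dsimp only at *
    have hst : s ⊆ t := fun i hi => (mem_U.mp (mem_sdiff.mp (hs hi)).1).1
    have hst' : s' ⊆ t' := fun i hi => (mem_U.mp (mem_sdiff.mp (hs' hi)).1).1
    have e1 : t \ (t \ s) = s := Finset.sdiff_sdiff_eq_self hst
    have e2 : t' \ (t' \ s') = s' := Finset.sdiff_sdiff_eq_self hst'
    have htt : t = t' := by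
      apply g.uniq ht ht' (x := t \ s) sdiff_subset (by rw [heq]; exact sdiff_subset)
      · rw [e1]
        exact hs.trans sdiff_subset
      · rw [heq, e2]
        exact hs'.trans sdiff_subset
    subst htt
    have : s = s' := by rw [← e1, ← e2, heq]
    subst this
    rfl
  · intro x hx
    rw [mem_filter, mem_faces] at hx
    obtain ⟨⟨hxc, t0, ht0, hxt0⟩, hz⟩ := hx
    obtain ⟨t, ht, hxt, hU⟩ := g.exist h ht0 hxt0
    refine ⟨⟨t, t \ x⟩, ?_, Finset.sdiff_sdiff_eq_self hxt⟩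
    rw [mem_sigma, mem_filter, mem_powersetCard]
    refine ⟨⟨ht, hz.trans hxt⟩, ?_, ?_⟩
    · intro i hi
      exact mem_sdiff.mpr ⟨hU hi, fun hc => (mem_sdiff.mp hi).2 (hz hc)⟩
    · rw [card_sdiff_of_subset hxt, (mem_tets.mp ht).1, hxc]

end Gen

theorem faces_one_le : (faces u b 1).card ≤ Fintype.card ι := by
  have h1 : faces u b 1 ⊆ univ.image fun i : ι => ({i} : Finset ι) := by
    intro x hx
    obtain ⟨a, ha⟩ := card_eq_one.mp (mem_faces.mp hx).1
    exact mem_image.mpr ⟨a, mem_univ _, ha.symm⟩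
  exact (card_le_card h1).trans card_image_le

theorem count_zero (h : SP u b) (g : Gen u b) {k : ℕ} (hk : k ≤ 4) :
    (faces u b k).card = ∑ t ∈ tets u b, ((g.U t).card).choose (4 - k) := by
  have h1 := g.count h ∅ hk
  rw [filter_true_of_mem (fun x _ => empty_subset x),
    filter_true_of_mem (fun x _ => empty_subset x)] at h1
  rw [h1]
  exact sum_congr rfl fun t _ => by rw [sdiff_empty]

theorem card_U (g : Gen u b) {t : Finset ι} (ht : t ∈ tets u b) :
    (g.U t).card + (g.neg.U t).card = 4 := by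
  rw [g.neg_U ht, add_comm, card_sdiff_add_card_eq_card, (mem_tets.mp ht).1]
  exact filter_subset _ _

/-- `f_0 ≤ f_2 + n`. -/
theorem f0_le (h : SP u b) :
    (tets u b).card ≤ (faces u b 2).card + Fintype.card ι := by
  obtain ⟨g⟩ := exists_gen h
  have h1 := count_zero h g (k := 2) (by norm_num)
  have h2 := count_zero h g.neg (k := 1) (by norm_num)
  have h3 := faces_one_le (u := u) (b := b)
  have h4 : (tets u b).card ≤ ∑ t ∈ tets u b, (((g.U t).card).choose 2 +
      ((g.neg.U t).card).choose 3) := by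
    rw [card_eq_sum_ones]
    apply sum_le_sum
    intro t ht
    have h5 := card_U g ht
    obtain ⟨k, hk⟩ : ∃ k, (g.U t).card = k := ⟨_, rfl⟩
    rw [hk] at h5 ⊢
    rw [show (g.neg.U t).card = 4 - k by omega]
    have h6 : k ≤ 4 := by omega
    interval_cases k <;> decide
  rw [sum_add_distrib] at h4
  norm_num at h1 h2
  omega

/-- `f_2 ≤ f_0 + 2n`. -/
theorem f2_le (h : SP u b) :
    (faces u b 2).card ≤ (tets u b).card + 2 * Fintype.card ι := by
  obtain ⟨g⟩ := exists_gen h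
  have h1 := count_zero h g (k := 2) (by norm_num)
  have h2 := count_zero h g (k := 1) (by norm_num)
  have h3 := faces_one_le (u := u) (b := b)
  have h4 : ∑ t ∈ tets u b, ((g.U t).card).choose 2 ≤
      ∑ t ∈ tets u b, (1 + 2 * ((g.U t).card).choose 3) := by
    apply sum_le_sum
    intro t ht
    have h5 := card_U g ht
    obtain ⟨k, hk⟩ : ∃ k, (g.U t).card = k := ⟨_, rfl⟩
    rw [hk] at h5 ⊢
    have h6 : k ≤ 4 := by omega
    interval_cases k <;> decide
  rw [sum_add_distrib, ← mul_sum, ← card_eq_sum_ones] at h4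
  norm_num at h1 h2
  omega

theorem faces_two_at (a : ι) :
    ((faces u b 2).filter fun x => {a} ⊆ x).card + 1 ≤ Fintype.card ι := by
  have h1 : ((faces u b 2).filter fun x => {a} ⊆ x) ⊆
      (univ.erase a).image fun c => ({a, c} : Finset ι) := by
    intro x hx
    rw [mem_filter, singleton_subset_iff] at hx
    have hc := (mem_faces.mp hx.1).1
    have h2 : (x.erase a).card = 1 := by rw [card_erase_of_mem hx.2, hc]
    obtain ⟨c, hc'⟩ := card_eq_one.mp h2
    have h3 : c ∈ x.erase a := by rw [hc']; exact mem_singleton_self _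
    refine mem_image.mpr ⟨c, mem_erase.mpr ⟨ne_of_mem_erase h3, mem_univ _⟩, ?_⟩
    rw [← insert_erase hx.2, hc']
  have h2 := (card_le_card h1).trans card_image_le
  rw [card_erase_of_mem (mem_univ a), card_univ] at h2
  have h3 : 0 < Fintype.card ι := Fintype.card_pos_iff.mpr ⟨a⟩
  omega

theorem card_U_at (g : Gen u b) {t : Finset ι} (ht : t ∈ tets u b) {a : ι} (ha : a ∈ t) :
    (g.U t \ {a}).card + (g.neg.U t \ {a}).card = 3 := by
  have h1 : (t \ {a}).card = 3 := by
    rw [card_sdiff_of_subset (singleton_subset_iff.mpr ha), (mem_tets.mp ht).1, card_singleton]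
  rw [g.neg_U ht, ← h1, ← card_union_of_disjoint]
  · congr 1
    ext i
    simp only [mem_union, mem_sdiff, mem_singleton, Gen.mem_U]
    tauto
  · rw [disjoint_left]
    intro i hi hi'
    simp only [mem_sdiff] at hi hi'
    exact hi'.1.2 hi.1

/-- The vertices of a facet. -/
theorem tets_at (h : SP u b) (a : ι) :
    ((tets u b).filter fun t => {a} ⊆ t).card + 2 ≤ 2 * Fintype.card ι := by
  obtain ⟨g⟩ := exists_gen h
  have h1 := g.count h {a} (k := 2) (by norm_num)
  have h2 := g.neg.count h {a} (k := 2) (by norm_num)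
  have h3 := faces_two_at (u := u) (b := b) a
  have h4 : ((tets u b).filter fun t => {a} ⊆ t).card ≤
      ∑ t ∈ (tets u b).filter (fun t => {a} ⊆ t), (((g.U t \ {a}).card).choose 2 +
      ((g.neg.U t \ {a}).card).choose 2) := by
    rw [card_eq_sum_ones]
    apply sum_le_sum
    intro t ht
    rw [mem_filter, singleton_subset_iff] at ht
    have h5 := card_U_at g ht.1 ht.2
    obtain ⟨k, hk⟩ : ∃ k, (g.U t \ {a}).card = k := ⟨_, rfl⟩
    rw [hk] at h5 ⊢
    rw [show (g.neg.U t \ {a}).card = 3 - k by omega]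
    have h6 : k ≤ 3 := by omega
    interval_cases k <;> decide
  rw [sum_add_distrib] at h4
  rw [show 4 - 2 = 2 from rfl] at h1 h2
  omega

/-- The edges of a facet. -/
theorem edges_at (h : SP u b) (a : ι) :
    ((faces u b 3).filter fun x => {a} ⊆ x).card + 3 ≤ 3 * Fintype.card ι := by
  obtain ⟨g⟩ := exists_gen h
  have h1 := g.count h {a} (k := 3) (by norm_num)
  have h2 := g.neg.count h {a} (k := 3) (by norm_num)
  have h3 := tets_at h a
  have h4 : 3 * ((tets u b).filter fun t => {a} ⊆ t).card =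
      ∑ t ∈ (tets u b).filter (fun t => {a} ⊆ t), (((g.U t \ {a}).card).choose 1 +
      ((g.neg.U t \ {a}).card).choose 1) := by
    rw [card_eq_sum_ones, mul_sum]
    apply sum_congr rfl
    intro t ht
    rw [mem_filter, singleton_subset_iff] at ht
    have h5 := card_U_at g ht.1 ht.2
    rw [Nat.choose_one_right, Nat.choose_one_right, h5, mul_one]
  rw [sum_add_distrib] at h4
  rw [show 4 - 3 = 1 from rfl] at h1 h2
  omega

end QMark
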