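import Mathlib

/-!
# Simple systems of inequalities in dimension 4: basic facts

Working file of helper56 for MP_f8fadf_co.
-/

namespace QMark

open Finset
open scoped InnerProductSpace

/-- The four dimensional Euclidean space. -/
abbrev E4 := EuclideanSpace ℝ (Fin 4)

variable {ι : Type*} [Fintype ι] [DecidableEq ι]

/-- The polyhedron given by the inequalities `⟪u i, p⟫ ≤ b i`. -/
def Poly (u : ι → E4) (b : ι → ℝ) : Set E4 := {p | ∀ i, ⟪u i, p⟫_ℝ ≤ b i}

/-- The set of the inequalities which are equalities at `p`. -/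
noncomputable def act (u : ι → E4) (b : ι → ℝ) (p : E4) : Finset (ι) :=
  univ.filter fun i => ⟪u i, p⟫_ℝ = b i

/-- `Poly u b` is bounded and at most four of the inequalities are equalities at a point of it. -/
structure SP (u : ι → E4) (b : ι → ℝ) : Prop where
  bdd : Bornology.IsBounded (Poly u b)
  simple : ∀ p ∈ Poly u b, (act u b p).card ≤ 4

variable {u : ι → E4} {b : ι → ℝ}

theorem mem_act {p : E4} {i : ι} : i ∈ act u b p ↔ ⟪u i, p⟫_ℝ = b i := by
  simp [act]

theorem inner_add_smul (i : ι) (p d : E4) (t : ℝ) :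
    ⟪u i, p + t • d⟫_ℝ = ⟪u i, p⟫_ℝ + t * ⟪u i, d⟫_ℝ := by
  rw [inner_add_right, inner_smul_right]

theorem exists_pos (h : SP u b) {p d : E4} (hp : p ∈ Poly u b) (hd : d ≠ 0) :
    ∃ j, 0 < ⟪u j, d⟫_ℝ := by
  by_contra hc
  push Not at hc
  obtain ⟨R, hR⟩ := h.bdd.subset_closedBall (0 : E4)
  have hdn : 0 < ‖d‖ := norm_pos_iff.mpr hd
  have hR0 : 0 ≤ R := by
    have := hR hp
    rw [mem_closedBall_zero_iff] at this
    exact (norm_nonneg _).trans this
  set t : ℝ := (R + ‖p‖ + 1) / ‖d‖ with ht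
  have ht0 : 0 ≤ t := by positivity
  have hm : p + t • d ∈ Poly u b := by
    intro i
    rw [inner_add_smul]
    have h1 := hp i
    have h2 := mul_nonneg ht0 (neg_nonneg.mpr (hc i))
    linarith
  have h3 := hR hm
  rw [mem_closedBall_zero_iff] at h3
  have h4 : ‖t • d‖ ≤ ‖p + t • d‖ + ‖p‖ := by
    calc ‖t • d‖ = ‖(p + t • d) - p‖ := by rw [add_sub_cancel_left]
      _ ≤ _ := norm_sub_le _ _
  rw [norm_smul, Real.norm_of_nonneg ht0, ht, div_mul_cancel₀ _ hdn.ne'] at h4
  linarith

theorem move (h : SP u b) {p d : E4} (hp : p ∈ Poly u b) (hd : d ≠ 0)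
    (ha : ∀ i ∈ act u b p, ⟪u i, d⟫_ℝ ≤ 0) :
    ∃ t : ℝ, 0 < t ∧ p + t • d ∈ Poly u b ∧
      ∃ j, j ∉ act u b p ∧ j ∈ act u b (p + t • d) := by
  classical
  obtain ⟨j0, hj0⟩ := exists_pos h hp hd
  have hne : (univ.filter fun j : ι => 0 < ⟪u j, d⟫_ℝ).Nonempty := ⟨j0, by simpa using hj0⟩
  obtain ⟨j, hj, hmin⟩ := exists_min_image _ (fun j => (b j - ⟪u j, p⟫_ℝ) / ⟪u j, d⟫_ℝ) hne
  simp only [mem_filter, mem_univ, true_and] at hj hmin
  have hja : j ∉ act u b p := fun hc => absurd (ha j hc) (not_le.mpr hj)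
  have hjl : ⟪u j, p⟫_ℝ < b j := lt_of_le_of_ne (hp j) fun hc => hja (mem_act.mpr hc)
  refine ⟨(b j - ⟪u j, p⟫_ℝ) / ⟪u j, d⟫_ℝ, div_pos (by linarith) hj, ?_, j, hja, ?_⟩
  · intro i
    rw [inner_add_smul]
    have hi := hp i
    rcases le_or_gt (⟪u i, d⟫_ℝ) 0 with h1 | h1
    · have h2 : 0 ≤ (b j - ⟪u j, p⟫_ℝ) / ⟪u j, d⟫_ℝ * (-⟪u i, d⟫_ℝ) :=
        mul_nonneg (div_pos (by linarith) hj).le (by linarith)
      linarith
    · have h2 := hmin i h1
      rw [le_div_iff₀ h1] at h2
      linarith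
  · rw [mem_act, inner_add_smul, div_mul_cancel₀ _ hj.ne']
    ring

omit [Fintype ι] [DecidableEq ι] in
theorem exists_orth (w : ι → E4)
    (h : Module.finrank ℝ (Submodule.span ℝ (Set.range w)) < 4) :
    ∃ d : E4, d ≠ 0 ∧ ∀ i, ⟪w i, d⟫_ℝ = 0 := by
  set K := Submodule.span ℝ (Set.range w) with hK
  have h1 := Submodule.finrank_add_finrank_orthogonal K
  rw [finrank_euclideanSpace_fin] at h1
  have h2 : Kᗮ ≠ ⊥ := by
    intro hc
    rw [hc, finrank_bot] at h1
    omega
  obtain ⟨d, hd, hd0⟩ := Submodule.exists_mem_ne_zero_of_ne_bot h2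
  refine ⟨d, hd0, fun i => ?_⟩
  rw [Submodule.mem_orthogonal] at hd
  exact hd _ (Submodule.subset_span ⟨i, rfl⟩)

theorem indep (h : SP u b) {p : E4} (hp : p ∈ Poly u b) :
    LinearIndependent ℝ (fun i : act u b p => u i) := by
  by_contra hc
  obtain ⟨m, hm⟩ : ∃ m, 4 - (act u b p).card = m := ⟨_, rfl⟩
  induction m using Nat.strong_induction_on generalizing p with
  | _ m ih =>
    have hcard := h.simple p hp
    have hlt : Module.finrank ℝ (Submodule.span ℝ (Set.range fun i : act u b p => u i)) < 4 := by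
      have h1 := finrank_range_le_card (R := ℝ) (fun i : act u b p => u i)
      rw [linearIndependent_iff_card_eq_finrank_span] at hc
      rw [Set.finrank] at h1 hc
      rw [Fintype.card_coe] at h1 hc
      omega
    obtain ⟨d, hd, hd0⟩ := exists_orth _ hlt
    have hd1 : ∀ i ∈ act u b p, ⟪u i, d⟫_ℝ = 0 := fun i hi => hd0 ⟨i, hi⟩
    obtain ⟨t, ht, hq, j, hj, hj'⟩ := move h hp hd fun i hi => (hd1 i hi).le
    have hsub : act u b p ⊆ act u b (p + t • d) := by
      intro i hi
      rw [mem_act, inner_add_smul, hd1 i hi, mul_zero, add_zero]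
      exact mem_act.mp hi
    have hss : act u b p ⊂ act u b (p + t • d) :=
      (ssubset_iff_of_subset hsub).mpr ⟨j, hj', hj⟩
    have hlt2 := card_lt_card hss
    have hle2 := h.simple _ hq
    refine ih (4 - (act u b (p + t • d)).card) (by omega) hq ?_ rfl
    intro hi
    have hinj : Function.Injective
        (fun i : act u b p => (⟨i.1, hsub i.2⟩ : act u b (p + t • d))) := fun x y hxy =>
      Subtype.ext (Subtype.mk.inj hxy)
    exact hc (hi.comp _ hinj)

theorem eq_zero_of_orth (h : SP u b) {p : E4} (hp : p ∈ Poly u b)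
    (h4 : (act u b p).card = 4) {r : E4} (hr : ∀ i ∈ act u b p, ⟪u i, r⟫_ℝ = 0) : r = 0 := by
  have hne : Nonempty (act u b p) := by
    rw [nonempty_coe_sort, ← card_pos, h4]
    norm_num
  have h1 := (indep h hp).span_eq_top_of_card_eq_finrank (by
    rw [Fintype.card_coe, h4, finrank_euclideanSpace_fin])
  have h2 : r ∈ (⊤ : Submodule ℝ E4)ᗮ := by
    rw [← h1, Submodule.mem_orthogonal]
    intro v hv
    induction hv using Submodule.span_induction with
    | mem x hx =>
      obtain ⟨i, rfl⟩ := hx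
      exact hr i.1 i.2
    | zero => simp
    | add x y _ _ hx hy => rw [inner_add_left, hx, hy, add_zero]
    | smul a x _ hx => rw [inner_smul_left, hx, mul_zero]
  rw [Submodule.top_orthogonal_eq_bot] at h2
  simpa using h2

theorem eq_of_act_sub (h : SP u b) {p q : E4} (hp : p ∈ Poly u b)
    (h4 : (act u b p).card = 4) (hs : act u b p ⊆ act u b q) : q = p := by
  have := eq_zero_of_orth h hp h4 (r := q - p) fun i hi => by
    rw [inner_sub_right, mem_act.mp hi, mem_act.mp (hs hi), sub_self]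
  exact sub_eq_zero.mp this

/-- The active set inside a segment. -/
theorem act_seg {p q : E4} (hp : p ∈ Poly u b) (hq : q ∈ Poly u b) {t : ℝ} (h0 : 0 < t)
    (h1 : t < 1) (i : ι) :
    i ∈ act u b (p + t • (q - p)) ↔ i ∈ act u b p ∧ i ∈ act u b q := by
  rw [mem_act, mem_act, mem_act, inner_add_smul, inner_sub_right]
  have h2 := hp i
  have h3 := hq i
  constructor
  · intro h4
    have h5 : (1 - t) * (b i - ⟪u i, p⟫_ℝ) + t * (b i - ⟪u i, q⟫_ℝ) = 0 := by linarith
    have h6 := mul_nonneg (sub_pos.mpr h1).le (sub_nonneg.mpr h2)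
    have h7 := mul_nonneg h0.le (sub_nonneg.mpr h3)
    have h8 : (1 - t) * (b i - ⟪u i, p⟫_ℝ) = 0 := by linarith
    have h9 : t * (b i - ⟪u i, q⟫_ℝ) = 0 := by linarith
    rcases mul_eq_zero.mp h8 with h8 | h8
    · linarith
    · rcases mul_eq_zero.mp h9 with h9 | h9
      · linarith
      · constructor <;> linarith
  · rintro ⟨h4, h5⟩
    rw [h4, h5]
    ring

/-- A convex combination. -/
theorem seg_mem {p q : E4} (hp : p ∈ Poly u b) (hq : q ∈ Poly u b) {t : ℝ} (h0 : 0 ≤ t)
    (h1 : t ≤ 1) : p + t • (q - p) ∈ Poly u b := by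
  intro i
  rw [inner_add_smul, inner_sub_right]
  have h2 := mul_le_mul_of_nonneg_left (hp i) (sub_nonneg.mpr h1)
  have h3 := mul_le_mul_of_nonneg_left (hq i) h0
  linarith

/-- Along an edge: from a vertex one of the four facets can be dropped in exactly one way. -/
theorem edge (h : SP u b) {p : E4} (hp : p ∈ Poly u b) {s : Finset (ι)} {d : ι}
    (hds : d ∉ s) (hs : s.card = 3) (hpa : act u b p = insert d s) :
    ∃ q ∈ Poly u b, ∃ d', d' ∉ insert d s ∧ act u b q = insert d' s ∧
      ∀ r ∈ Poly u b, (act u b r).card = 4 → s ⊆ act u b r → r = p ∨ r = q := by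
  have h4 : (act u b p).card = 4 := by rw [hpa, card_insert_of_notMem hds, hs]
  have hlt : Module.finrank ℝ (Submodule.span ℝ (Set.range fun i : s => u i)) < 4 := by
    have h1 := finrank_range_le_card (R := ℝ) (fun i : s => u i)
    rw [Set.finrank, Fintype.card_coe] at h1
    omega
  obtain ⟨e0, he0, he1⟩ := exists_orth _ hlt
  have he2 : ∀ i ∈ s, ⟪u i, e0⟫_ℝ = 0 := fun i hi => he1 ⟨i, hi⟩
  have hd0 : ⟪u d, e0⟫_ℝ ≠ 0 := by
    intro hc
    apply he0
    apply eq_zero_of_orth h hp h4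
    intro i hi
    rw [hpa, mem_insert] at hi
    rcases hi with rfl | hi
    · exact hc
    · exact he2 i hi
  obtain ⟨e, hene, hes, hed⟩ : ∃ e : E4, e ≠ 0 ∧ (∀ i ∈ s, ⟪u i, e⟫_ℝ = 0) ∧
      ⟪u d, e⟫_ℝ < 0 := by
    rcases lt_or_gt_of_ne hd0 with hlt | hgt
    · exact ⟨e0, he0, he2, hlt⟩
    · refine ⟨-e0, neg_ne_zero.mpr he0, fun i hi => ?_, ?_⟩
      · rw [inner_neg_right, he2 i hi, neg_zero]
      · rw [inner_neg_right]
        linarith
  obtain ⟨t, ht, hq, j, hj, hj'⟩ := move h hp hene fun i hi => by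
    rw [hpa, mem_insert] at hi
    rcases hi with rfl | hi
    · exact hed.le
    · exact (hes i hi).le
  have hjs : j ∉ insert d s := by rw [← hpa]; exact hj
  have hjs' : j ∉ s := fun hc => hjs (mem_insert_of_mem hc)
  have hsub : insert j s ⊆ act u b (p + t • e) := by
    intro i hi
    rw [mem_insert] at hi
    rcases hi with rfl | hi
    · exact hj'
    · rw [mem_act, inner_add_smul, hes i hi, mul_zero, add_zero]
      apply mem_act.mp
      rw [hpa]
      exact mem_insert_of_mem hi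
  have hqa : act u b (p + t • e) = insert j s := by
    refine (eq_of_subset_of_card_le hsub ?_).symm
    rw [card_insert_of_notMem hjs', hs]
    exact h.simple _ hq
  have hsp : s ⊆ act u b p := by rw [hpa]; exact subset_insert _ _
  have hdp : d ∈ act u b p := by rw [hpa]; exact mem_insert_self _ _
  refine ⟨p + t • e, hq, j, hjs, hqa, ?_⟩
  intro r hr hr4 hrs
  set τ : ℝ := ⟪u d, r - p⟫_ℝ / ⟪u d, e⟫_ℝ with hτ
  have hrp : r = p + τ • e := by
    have h5 : r - p - τ • e = 0 := by
      apply eq_zero_of_orth h hp h4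
      intro i hi
      rw [hpa, mem_insert] at hi
      rw [inner_sub_right, inner_smul_right]
      rcases hi with rfl | hi
      · rw [hτ, div_mul_cancel₀ _ hed.ne, sub_self]
      · rw [hes i hi, mul_zero, sub_zero, inner_sub_right, mem_act.mp (hrs hi),
          mem_act.mp (hsp hi), sub_self]
    have h6 : r - p = τ • e := sub_eq_zero.mp h5
    rw [← h6]
    abel
  have hτ0 : 0 ≤ τ := by
    rw [hτ]
    apply div_nonneg_of_nonpos _ hed.le
    rw [inner_sub_right, mem_act.mp hdp]
    have := hr d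
    linarith
  rcases hτ0.eq_or_lt with h0 | h0
  · left
    rw [hrp, ← h0, zero_smul, add_zero]
  rcases lt_trichotomy τ t with h1 | h1 | h1
  · -- `r` is inside the segment
    exfalso
    have h2 : r = p + (τ / t) • ((p + t • e) - p) := by
      rw [add_sub_cancel_left, smul_smul, div_mul_cancel₀ _ ht.ne', hrp]
    have h3 : act u b r ⊆ s := by
      intro i hi
      rw [h2, act_seg hp hq (div_pos h0 ht) ((div_lt_one ht).mpr h1), hpa, hqa, mem_insert,
        mem_insert] at hi
      rcases hi with ⟨h4 | h4, h5 | h5⟩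
      · exfalso
        apply hjs
        rw [← h5, h4]
        exact mem_insert_self _ _
      · exact h5
      · exact h4
      · exact h4
    have h4 := card_le_card h3
    omega
  · right
    rw [hrp, h1]
  · exfalso
    have h2 : p + t • e = p + (t / τ) • (r - p) := by
      rw [hrp, add_sub_cancel_left, smul_smul, div_mul_cancel₀ _ h0.ne']
    rw [h2, act_seg hp hr (div_pos ht h0) ((div_lt_one h0).mpr h1)] at hj'
    exact hj hj'.1

end QMark
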