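import Pool.Agent.QMark.Brd

/-!
# MP_f8fadf_co: 2-faces which are not 4-gons, and large 2-faces
-/

namespace Pool.Agent.QMark.LargeFacesOld

open Finset
open scoped InnerProductSpace

/-- The four dimensional Euclidean space. -/
abbrev E4 := EuclideanSpace ℝ (Fin 4)

variable {n : ℕ}

/-- The polyhedron `P` of the inequalities `⟪u i, p⟫ ≤ b i`, `i < n`. -/
def Poly (u : Fin n → E4) (b : Fin n → ℝ) : Set E4 := {p | ∀ i, ⟪u i, p⟫_ℝ ≤ b i}

/-- The facet `F_i` of `P`. -/
def Facet (u : Fin n → E4) (b : Fin n → ℝ) (i : Fin n) : Set E4 :=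
  {p | p ∈ Poly u b ∧ ⟪u i, p⟫_ℝ = b i}

/-- `P` is a simple 4-polytope with exactly `n` facets `F_0, ..., F_(n-1)`: it is bounded, for every
`i` some point of `P` lies in `F_i` and in no other `F_j`, and every point of `P` lies in at most
four of the `F_j`. -/
structure IsSimple4Polytope (u : Fin n → E4) (b : Fin n → ℝ) : Prop where
  bounded : Bornology.IsBounded (Poly u b)
  facet : ∀ i, ∃ p ∈ Poly u b, ∀ j, ⟪u j, p⟫_ℝ = b j ↔ j = i
  simple : ∀ p ∈ Poly u b, {j | ⟪u j, p⟫_ℝ = b j}.ncard ≤ 4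

/-- The number of vertices of `F_i ∩ F_j`. -/
noncomputable def verts (u : Fin n → E4) (b : Fin n → ℝ) (i j : Fin n) : ℕ :=
  (Set.extremePoints ℝ (Facet u b i ∩ Facet u b j)).ncard

/-- The 2-faces `F_i ∩ F_j` (`i < j`) of the simple 4-polytope `P` which are not 4-gons. -/
def NonQuads (u : Fin n → E4) (b : Fin n → ℝ) : Set (Fin n × Fin n) :=
  {e | e.1 < e.2 ∧ (Facet u b e.1 ∩ Facet u b e.2).Nonempty ∧ verts u b e.1 e.2 ≠ 4}

/-- The 2-faces `F_i ∩ F_j` (`i < j`) through `v` with at least `D` vertices. -/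
def LargeAt (u : Fin n → E4) (b : Fin n → ℝ) (D : ℕ) (v : E4) : Set (Fin n × Fin n) :=
  {e | e.1 < e.2 ∧ v ∈ Facet u b e.1 ∩ Facet u b e.2 ∧ D ≤ verts u b e.1 e.2}

/-- The vertices of `P` on at most one 2-face with at least `D` vertices. -/
def Few (u : Fin n → E4) (b : Fin n → ℝ) (D : ℕ) : Set E4 :=
  {v | v ∈ Set.extremePoints ℝ (Poly u b) ∧ (LargeAt u b D v).ncard ≤ 1}

/-- Exactly two 2-faces with at least `D` vertices contain `v`, and they are not contained in a
common facet. -/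
def Split (u : Fin n → E4) (b : Fin n → ℝ) (D : ℕ) (v : E4) : Prop :=
  ∃ e e' : Fin n × Fin n, LargeAt u b D v = {e, e'} ∧
    e.1 ≠ e'.1 ∧ e.1 ≠ e'.2 ∧ e.2 ≠ e'.1 ∧ e.2 ≠ e'.2

theorem sp {u : Fin n → E4} {b : Fin n → ℝ} (h : IsSimple4Polytope u b) : QMark.SP u b := by
  refine ⟨h.bounded, fun p hp => ?_⟩
  have hc : {j | ⟪u j, p⟫_ℝ = b j}.ncard = (QMark.act u b p).card := by
    rw [← Set.ncard_coe_finset]
    congr 1
    ext j
    rw [mem_coe, QMark.mem_act]
    rfl
  rw [← hc]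
  exact h.simple p hp

theorem inter_eq (u : Fin n → E4) (b : Fin n → ℝ) (i j : Fin n) :
    Facet u b i ∩ Facet u b j = QMark.Two u b i j := by
  ext p
  constructor
  · rintro ⟨⟨h1, h2⟩, -, h3⟩
    exact ⟨h1, h2, h3⟩
  · rintro ⟨h1, h2, h3⟩
    exact ⟨⟨h1, h2⟩, h1, h3⟩

theorem verts_eq {u : Fin n → E4} {b : Fin n → ℝ} (h : QMark.SP u b) (i j : Fin n) :
    verts u b i j = QMark.size u b {i, j} := by
  rw [verts, inter_eq, QMark.ncard_two h]

theorem nonQuads_card {u : Fin n → E4} {b : Fin n → ℝ} (h : QMark.SP u b) :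
    (NonQuads u b).ncard = (QMark.nonq u b).card := by
  classical
  rw [Set.ncard_eq_toFinset_card']
  apply QMark.card_pairs
  · intro x hx
    exact (QMark.mem_faces.mp (mem_filter.mp hx).1).1
  · intro a
    rw [Set.mem_toFinset, QMark.nonq, mem_filter]
    constructor
    · rintro ⟨h1, h2, h3⟩
      rw [inter_eq, QMark.nonempty_two h h1.ne] at h2
      rw [verts_eq h] at h3
      exact ⟨h1, h2, h3⟩
    · rintro ⟨h1, h2, h3⟩
      refine ⟨h1, ?_, ?_⟩
      · rw [inter_eq, QMark.nonempty_two h h1.ne]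
        exact h2
      · rw [verts_eq h]
        exact h3

theorem mem_largeAt {u : Fin n → E4} {b : Fin n → ℝ} (h : QMark.SP u b) {D : ℕ} {v : E4}
    (hv : v ∈ QMark.Poly u b) (a : Fin n × Fin n) : a ∈ LargeAt u b D v ↔
      a.1 < a.2 ∧ ({a.1, a.2} : Finset (Fin n)) ∈
        (QMark.big u b D).filter fun x => x ⊆ QMark.act u b v := by
  rw [mem_filter, QMark.big, mem_filter]
  constructor
  · rintro ⟨h1, h2, h3⟩
    have h2' : v ∈ QMark.Two u b a.1 a.2 := by rw [← inter_eq]; exact h2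
    rw [verts_eq h] at h3
    refine ⟨h1, ⟨(QMark.nonempty_two h h1.ne).mp ⟨v, h2'⟩, h3⟩, ?_⟩
    intro k hk
    rw [mem_insert, mem_singleton] at hk
    rcases hk with rfl | rfl
    · exact QMark.mem_act.mpr h2'.2.1
    · exact QMark.mem_act.mpr h2'.2.2
  · rintro ⟨h1, ⟨-, h3⟩, h4⟩
    refine ⟨h1, ⟨⟨hv, QMark.mem_act.mp (h4 (by simp))⟩, hv, QMark.mem_act.mp (h4 (by simp))⟩, ?_⟩
    rw [verts_eq h]
    exact h3

theorem largeAt_card {u : Fin n → E4} {b : Fin n → ℝ} (h : QMark.SP u b) {D : ℕ} {v : E4}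
    (hv : v ∈ QMark.Poly u b) : (LargeAt u b D v).ncard =
      ((QMark.big u b D).filter fun x => x ⊆ QMark.act u b v).card := by
  classical
  rw [Set.ncard_eq_toFinset_card']
  apply QMark.card_pairs
  · intro x hx
    exact QMark.big_two x (mem_filter.mp hx).1
  · intro a
    rw [Set.mem_toFinset]
    exact mem_largeAt h hv a

theorem few_card {u : Fin n → E4} {b : Fin n → ℝ} (h : QMark.SP u b) (D : ℕ) :
    (Few u b D).ncard = (QMark.few u b D).card := by
  apply QMark.ncard_vertices h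
  · exact fun t ht => (mem_filter.mp ht).1
  · intro v
    rw [QMark.few, mem_filter]
    constructor
    · rintro ⟨h1, h2⟩
      have h3 := (QMark.extreme_poly h).mp h1
      rw [largeAt_card h h3.1] at h2
      exact ⟨h1, QMark.mem_tets.mpr ⟨h3.2, v, h3.1, rfl⟩, h2⟩
    · rintro ⟨h1, -, h2⟩
      refine ⟨h1, ?_⟩
      rw [largeAt_card h ((QMark.extreme_poly h).mp h1).1]
      exact h2

theorem notSplit_card {u : Fin n → E4} {b : Fin n → ℝ} (h : QMark.SP u b) (D : ℕ) :
    {v | v ∈ Set.extremePoints ℝ (Poly u b) ∧ ¬ Split u b D v}.ncard ≤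
      (QMark.bad u b (QMark.big u b D)).card := by
  classical
  have hfin : {v | v ∈ Set.extremePoints ℝ (QMark.Poly u b) ∧
      QMark.act u b v ∈ QMark.bad u b (QMark.big u b D)}.Finite := by
    apply Set.Finite.of_finite_image (f := fun v => QMark.act u b v) (Set.toFinite _)
    intro p hp q hq hpq
    have h1 := (QMark.extreme_poly h).mp hq.1
    exact QMark.eq_of_act_sub h h1.1 h1.2 (by rw [show QMark.act u b q = QMark.act u b p from
      hpq.symm])
  rw [← QMark.ncard_vertices h {v | v ∈ Set.extremePoints ℝ (QMark.Poly u b) ∧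
    QMark.act u b v ∈ QMark.bad u b (QMark.big u b D)} (QMark.bad u b (QMark.big u b D))
    (fun t ht => (mem_filter.mp ht).1) (fun v => Iff.rfl)]
  apply Set.ncard_le_ncard _ hfin
  rintro v ⟨hv, hns⟩
  have hv' := (QMark.extreme_poly h).mp hv
  refine ⟨hv, ?_⟩
  rw [QMark.bad, mem_filter]
  refine ⟨QMark.mem_tets.mpr ⟨hv'.2, v, hv'.1, rfl⟩, ?_⟩
  rintro ⟨e, he, hec, hM⟩
  apply hns
  obtain ⟨a, ha, rfl⟩ := QMark.exists_pair hec
  obtain ⟨c, hc, hce⟩ := QMark.exists_pair (x := QMark.act u b v \ {a.1, a.2}) (by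
    rw [card_sdiff_of_subset he, hv'.2, hec])
  rw [hce] at hM
  have hdis : Disjoint ({a.1, a.2} : Finset (Fin n)) {c.1, c.2} := by
    rw [← hce]
    exact disjoint_sdiff
  rw [Finset.disjoint_left] at hdis
  refine ⟨a, c, ?_, fun e => hdis (a := a.1) (by simp) (by simp [e]),
    fun e => hdis (a := a.1) (by simp) (by simp [e]),
    fun e => hdis (a := a.2) (by simp) (by simp [e]),
    fun e => hdis (a := a.2) (by simp) (by simp [e])⟩
  ext x
  rw [mem_largeAt h hv'.1, hM, Set.mem_insert_iff, Set.mem_singleton_iff, mem_insert,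
    mem_singleton]
  constructor
  · rintro ⟨h1, h2 | h2⟩
    · exact Or.inl (QMark.pair_inj h1 ha h2)
    · exact Or.inr (QMark.pair_inj h1 hc h2)
  · rintro (rfl | rfl)
    · exact ⟨ha, Or.inl rfl⟩
    · exact ⟨hc, Or.inr rfl⟩

/-- **Main result.** Let `P` be a simple 4-polytope with `n` facets, `D ≥ 1`, and let `X` be the
number of 2-faces of `P` which are not 4-gons. (1) If `q` vertices are on at most one 2-face with at
least `D` vertices, then `X ≤ 4 n + 14 q + 771 n (n + 1) / D`. (2) All but at most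
`8 n + 5 D X + 270 n (n + 1) / D` vertices of `P` are on exactly two 2-faces with at least `D`
vertices, and these two are not in a common facet. -/
theorem result :
    ∀ (n D : ℕ) (u : Fin n → E4) (b : Fin n → ℝ), IsSimple4Polytope u b → 1 ≤ D →
      ((NonQuads u b).ncard : ℝ) ≤ 4 * n + 14 * (Few u b D).ncard + 771 * n * (n + 1) / D ∧
      ({v | v ∈ Set.extremePoints ℝ (Poly u b) ∧ ¬ Split u b D v}.ncard : ℝ) ≤
        8 * n + 5 * D * (NonQuads u b).ncard + 270 * n * (n + 1) / D := by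
  intro n D u b h hD
  have hs := sp h
  have h1 := QMark.partI hs D
  have h2 := QMark.partIII hs D
  have h3 := QMark.big_card hs D
  have h4 := notSplit_card hs D
  rw [Fintype.card_fin] at h1 h2 h3
  rw [← nonQuads_card hs, ← few_card hs] at h1
  rw [← nonQuads_card hs] at h2
  have hD0 : (0 : ℝ) < D := by exact_mod_cast hD
  have h3' : ((QMark.big u b D).card : ℝ) * D ≤ 3 * (n * (n + 1)) := by exact_mod_cast h3
  have h5 : ((QMark.big u b D).card : ℝ) ≤ 3 * n * (n + 1) / D := by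
    rw [le_div_iff₀ hD0]
    linarith
  have h1' : ((NonQuads u b).ncard : ℝ) ≤ 4 * n + 14 * (Few u b D).ncard +
      257 * (QMark.big u b D).card := by exact_mod_cast h1
  have h2' : ({v | v ∈ Set.extremePoints ℝ (Poly u b) ∧ ¬ Split u b D v}.ncard : ℝ) ≤
      8 * n + 5 * ((NonQuads u b).ncard * ((D - 1 : ℕ) : ℝ)) + 90 * (QMark.big u b D).card := by
    exact_mod_cast h4.trans h2
  constructor
  · calc ((NonQuads u b).ncard : ℝ) ≤ 4 * n + 14 * (Few u b D).ncard +
        257 * (QMark.big u b D).card := h1'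
      _ ≤ 4 * n + 14 * (Few u b D).ncard + 257 * (3 * n * (n + 1) / D) := by linarith
      _ = _ := by ring
  · have h6 : ((NonQuads u b).ncard : ℝ) * ((D - 1 : ℕ) : ℝ) ≤ D * (NonQuads u b).ncard := by
      rw [mul_comm]
      apply mul_le_mul_of_nonneg_right _ (Nat.cast_nonneg _)
      exact_mod_cast Nat.sub_le D 1
    calc _ ≤ 8 * n + 5 * ((NonQuads u b).ncard * ((D - 1 : ℕ) : ℝ)) +
        90 * (QMark.big u b D).card := h2'
      _ ≤ 8 * n + 5 * (D * (NonQuads u b).ncard) + 90 * (3 * n * (n + 1) / D) := by linarith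
      _ = _ := by ring

end Pool.Agent.QMark.LargeFacesOld
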