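import Pool.Agent.QMark.Sub

/-!
# The marking inequality

Working file of helper56 for MP_f8fadf_co.
-/

namespace QMark

open Finset
open scoped InnerProductSpace

variable {ι : Type*} [Fintype ι] [DecidableEq ι] {u : ι → E4} {b : ι → ℝ}

/-- The 2-faces which are not 4-gons. -/
noncomputable def nonq (u : ι → E4) (b : ι → ℝ) : Finset (Finset ι) :=
  (faces u b 2).filter fun x => size u b x ≠ 4

/-- The marked pairs in `t` are two opposite pairs. -/
def Good (M : Finset (Finset ι)) (t : Finset ι) : Prop :=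
  ∃ e, e ⊆ t ∧ e.card = 2 ∧ M.filter (fun x => x ⊆ t) = {e, t \ e}

omit [Fintype ι] in
theorem good_symm {M : Finset (Finset ι)} {t e : Finset ι} (he : e ⊆ t)
    (hM : M.filter (fun x => x ⊆ t) = {e, t \ e}) :
    M.filter (fun x => x ⊆ t) = {t \ e, t \ (t \ e)} := by
  rw [Finset.sdiff_sdiff_eq_self he, hM]
  exact pair_comm _ _

omit [Fintype ι] in
/-- In a good quadruple every element has exactly one marked partner. -/
theorem partner {M : Finset (Finset ι)} {t : Finset ι} (ht : t.card = 4) (hG : Good M t)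
    {i j : ι} (hij : i ≠ j) (hx : {i, j} ⊆ t) (hxM : {i, j} ∉ M) :
    ((t \ {i, j}).filter fun p => {i, p} ∈ M).card = 1 := by
  obtain ⟨e0, he0, hc0, hM0⟩ := hG
  have hit : i ∈ t := hx (mem_insert_self _ _)
  obtain ⟨e, he, hc, hM, hie⟩ : ∃ e, e ⊆ t ∧ e.card = 2 ∧
      M.filter (fun x => x ⊆ t) = {e, t \ e} ∧ i ∈ e := by
    by_cases hie : i ∈ e0
    · exact ⟨e0, he0, hc0, hM0, hie⟩
    · refine ⟨t \ e0, sdiff_subset, ?_, good_symm he0 hM0, mem_sdiff.mpr ⟨hit, hie⟩⟩
      rw [card_sdiff_of_subset he0, ht, hc0]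
  have heM : e ∈ M := by
    have : e ∈ M.filter (fun x => x ⊆ t) := by rw [hM]; exact mem_insert_self _ _
    exact (mem_filter.mp this).1
  obtain ⟨p, hp⟩ := card_eq_one.mp (show (e.erase i).card = 1 by
    rw [card_erase_of_mem hie, hc])
  have hep : e = {i, p} := by rw [← insert_erase hie, hp]
  have hpe : p ∈ e.erase i := by rw [hp]; exact mem_singleton_self _
  have hpi : p ≠ i := ne_of_mem_erase hpe
  have hpj : p ≠ j := by
    rintro rfl
    exact hxM (hep ▸ heM)
  rw [card_eq_one]
  refine ⟨p, ?_⟩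
  ext p'
  rw [mem_filter, mem_sdiff, mem_singleton]
  constructor
  · rintro ⟨⟨hp't, hp'x⟩, hp'M⟩
    have h1 : ({i, p'} : Finset ι) ∈ M.filter (fun x => x ⊆ t) := by
      rw [mem_filter]
      refine ⟨hp'M, ?_⟩
      intro a ha
      rw [mem_insert, mem_singleton] at ha
      rcases ha with rfl | rfl
      · exact hit
      · exact hp't
    rw [hM, mem_insert, mem_singleton] at h1
    rcases h1 with h1 | h1
    · have h2 : p' ∈ e := by rw [← h1]; simp
      rw [hep, mem_insert, mem_singleton] at h2
      rcases h2 with h2 | h2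
      · exact absurd (h2 ▸ mem_insert_self _ _) hp'x
      · exact h2
    · have h2 : i ∈ t \ e := by rw [← h1]; simp
      exact absurd hie (mem_sdiff.mp h2).2
  · rintro rfl
    refine ⟨⟨he (mem_of_mem_erase hpe), ?_⟩, hep ▸ heM⟩
    rw [mem_insert, mem_singleton]
    rintro (h1 | h1)
    · exact hpi h1
    · exact hpj h1

/-- Parity. -/
theorem even_size (h : SP u b) {M : Finset (Finset ι)} {x : Finset ι}
    (hx : x ∈ faces u b 2) (hxM : x ∉ M) (hG : ∀ t ∈ tets u b, x ⊆ t → Good M t) :
    Even (size u b x) := by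
  classical
  obtain ⟨i, j, hij, rfl⟩ := card_eq_two.mp (mem_faces.mp hx).1
  set S := (tets u b).filter fun t => ({i, j} : Finset ι) ⊆ t with hS
  set Q := (univ.filter fun p : ι => p ∉ ({i, j} : Finset ι) ∧ ({i, p} : Finset ι) ∈ M ∧
    ∃ t ∈ S, p ∈ t) with hQ
  have h1 := sum_card_bipartiteAbove_eq_sum_card_bipartiteBelow (s := S) (t := Q)
    (fun (t : Finset ι) (p : ι) => p ∈ t)
  have h2 : ∀ t ∈ S, (Q.bipartiteAbove (fun (t : Finset ι) (p : ι) => p ∈ t) t).card = 1 := by
    intro t ht
    rw [hS, mem_filter] at ht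
    rw [← partner (mem_tets.mp ht.1).1 (hG t ht.1 ht.2) hij ht.2 hxM]
    congr 1
    ext p
    simp only [bipartiteAbove, hQ, hS, mem_filter, mem_univ, true_and, mem_sdiff]
    constructor
    · rintro ⟨⟨h3, h4, -⟩, h5⟩
      exact ⟨⟨h5, h3⟩, h4⟩
    · rintro ⟨⟨h5, h3⟩, h4⟩
      exact ⟨⟨h3, h4, t, ht, h5⟩, h5⟩
  have h3 : ∀ p ∈ Q, (S.bipartiteBelow (fun (t : Finset ι) (p : ι) => p ∈ t) p).card = 2 := by
    intro p hp
    simp only [hQ, mem_filter, mem_univ, true_and] at hp
    obtain ⟨hp1, -, t, ht, hpt⟩ := hp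
    rw [hS, mem_filter] at ht
    have hy : (insert p ({i, j} : Finset ι)).card = 3 := by
      rw [card_insert_of_notMem hp1, card_pair hij]
    have hyt : insert p ({i, j} : Finset ι) ⊆ t := insert_subset hpt ht.2
    rw [← card_three h hy ht.1 hyt]
    congr 1
    ext s
    simp only [bipartiteBelow, hS, mem_filter, insert_subset_iff]
    tauto
  rw [sum_congr rfl h2, sum_congr rfl h3, sum_const, sum_const, smul_eq_mul, smul_eq_mul,
    mul_one] at h1
  change Even S.card
  rw [h1]
  exact even_two.mul_left _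

theorem pairs_below {t : Finset ι} (ht : t ∈ tets u b) :
    (faces u b 2).filter (fun x => x ⊆ t) = t.powersetCard 2 := by
  ext x
  rw [mem_filter, mem_faces, mem_powersetCard]
  constructor
  · rintro ⟨⟨h1, -⟩, h2⟩
    exact ⟨h2, h1⟩
  · rintro ⟨h2, h1⟩
    exact ⟨⟨h1, t, ht, h2⟩, h2⟩

theorem six {t : Finset ι} (ht : t ∈ tets u b) :
    ((faces u b 2).filter fun x => x ⊆ t).card = 6 := by
  rw [pairs_below ht, card_powersetCard, (mem_tets.mp ht).1]
  decide

/-- Double counting. -/
theorem sum_size (F : Finset (Finset ι)) :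
    ∑ x ∈ F, size u b x = ∑ t ∈ tets u b, (F.filter fun x => x ⊆ t).card := by
  exact sum_card_bipartiteAbove_eq_sum_card_bipartiteBelow (s := F) (t := tets u b)
    (fun x t => x ⊆ t)

open Classical in
/-- The bad vertices. -/
noncomputable def bad (u : ι → E4) (b : ι → ℝ) (M : Finset (Finset ι)) : Finset (Finset ι) :=
  (tets u b).filter fun t => ¬ Good M t

/-- **The marking inequality.** -/
theorem marking (h : SP u b) {M : Finset (Finset ι)} (hM : M ⊆ faces u b 2) :
    (nonq u b).card ≤ 4 * Fintype.card ι + 14 * (bad u b M).card + 5 * M.card := by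
  classical
  set F := faces u b 2 with hF
  set G := F \ M with hG
  have hGM : G.card + M.card = F.card := card_sdiff_add_card_eq_card hM
  -- the flags
  have h1 : ∑ x ∈ G, size u b x ≤ 4 * (tets u b).card + 2 * (bad u b M).card := by
    rw [sum_size]
    have h2 : ∀ t ∈ tets u b, (G.filter fun x => x ⊆ t).card ≤
        4 + if ¬ Good M t then 2 else 0 := by
      intro t ht
      have h3 : (G.filter fun x => x ⊆ t).card + (M.filter fun x => x ⊆ t).card = 6 := by
        rw [← six ht, ← card_union_of_disjoint, ← filter_union, hG, sdiff_union_of_subset hM]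
        rw [disjoint_left]
        intro x hx hx'
        exact (mem_sdiff.mp (mem_filter.mp hx).1).2 (mem_filter.mp hx').1
      by_cases h4 : Good M t
      · obtain ⟨e, he, hc, hMe⟩ := h4
        have hne : e ≠ t \ e := by
          intro hcon
          obtain ⟨i, hi⟩ := card_pos.mp (show 0 < e.card by omega)
          have hi' : i ∈ t \ e := hcon ▸ hi
          exact (mem_sdiff.mp hi').2 hi
        rw [hMe, card_pair hne] at h3
        omega
      · rw [if_pos h4]
        omega
    refine (sum_le_sum h2).trans ?_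
    rw [sum_add_distrib, sum_const, smul_eq_mul, ← sum_filter, sum_const, smul_eq_mul]
    change _ + (bad u b M).card * 2 ≤ _
    omega
  -- the triangles
  have h2 : (G.filter fun x => size u b x = 3).card ≤ 6 * (bad u b M).card := by
    have h3 : (G.filter fun x => size u b x = 3) ⊆
        (bad u b M).biUnion fun t => t.powersetCard 2 := by
      intro x hx
      rw [mem_filter, hG, mem_sdiff] at hx
      obtain ⟨⟨hxF, hxM⟩, hx3⟩ := hx
      by_contra hcon
      have h4 : Even (size u b x) := by
        apply even_size h hxF hxM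
        intro t ht hxt
        by_contra hbad
        apply hcon
        rw [mem_biUnion]
        exact ⟨t, mem_filter.mpr ⟨ht, hbad⟩, mem_powersetCard.mpr ⟨hxt, (mem_faces.mp hxF).1⟩⟩
      rw [hx3] at h4
      exact absurd h4 (by decide)
    refine (card_le_card h3).trans (card_biUnion_le.trans ?_)
    rw [mul_comm, ← smul_eq_mul, ← sum_const]
    apply sum_le_sum
    intro t ht
    rw [card_powersetCard, (mem_tets.mp (mem_filter.mp ht).1).1]
    decide
  -- the sum
  have h3 : (G.filter fun x => size u b x ≠ 4).card + 4 * G.card ≤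
      ∑ x ∈ G, size u b x + 2 * (G.filter fun x => size u b x = 3).card := by
    rw [card_filter, card_filter, mul_sum, ← sum_add_distrib]
    have h4 : 4 * G.card = ∑ x ∈ G, 4 := by rw [sum_const, smul_eq_mul, mul_comm]
    rw [h4, ← sum_add_distrib]
    apply sum_le_sum
    intro x hx
    have h5 := three_le_size h (mem_sdiff.mp hx).1
    split_ifs <;> omega
  have h4 : (nonq u b).card ≤ (G.filter fun x => size u b x ≠ 4).card + M.card := by
    refine (card_le_card ?_).trans (card_union_le _ _)
    intro x hx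
    rw [nonq, mem_filter] at hx
    rw [mem_union, mem_filter, hG, mem_sdiff]
    by_cases hxM : x ∈ M
    · exact Or.inr hxM
    · exact Or.inl ⟨⟨hx.1, hxM⟩, hx.2⟩
  have h5 := f0_le h
  rw [← hF] at h5
  omega

end QMark
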