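import Pool.Agent.QMark.Geo

/-!
# Vertices and faces of simple systems

Working file of helper56 for MP_f8fadf_co.
-/

namespace QMark

open Finset
open scoped InnerProductSpace

variable {ι : Type*} [Fintype ι] [DecidableEq ι] {u : ι → E4} {b : ι → ℝ}

open Classical in
/-- The active sets of the vertices. -/
noncomputable def tets (u : ι → E4) (b : ι → ℝ) : Finset (Finset ι) :=
  univ.filter fun t => t.card = 4 ∧ ∃ p ∈ Poly u b, act u b p = t

theorem mem_tets {t : Finset ι} :
    t ∈ tets u b ↔ t.card = 4 ∧ ∃ p ∈ Poly u b, act u b p = t := by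
  classical
  simp [tets]

/-- Every active set extends to the active set of a vertex. -/
theorem exists_tet (h : SP u b) {p : E4} (hp : p ∈ Poly u b) :
    ∃ t ∈ tets u b, act u b p ⊆ t := by
  obtain ⟨m, hm⟩ : ∃ m, 4 - (act u b p).card = m := ⟨_, rfl⟩
  induction m using Nat.strong_induction_on generalizing p with
  | _ m ih =>
    have hcard := h.simple p hp
    by_cases h4 : (act u b p).card = 4
    · exact ⟨act u b p, mem_tets.mpr ⟨h4, p, hp, rfl⟩, Subset.refl _⟩
    have hlt : Module.finrank ℝ (Submodule.span ℝ (Set.range fun i : act u b p => u i)) < 4 := by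
      have h1 := finrank_range_le_card (R := ℝ) (fun i : act u b p => u i)
      rw [Set.finrank, Fintype.card_coe] at h1
      omega
    obtain ⟨d, hd, hd0⟩ := exists_orth _ hlt
    have hd1 : ∀ i ∈ act u b p, ⟪u i, d⟫_ℝ = 0 := fun i hi => hd0 ⟨i, hi⟩
    obtain ⟨t, ht, hq, j, hj, hj'⟩ := move h hp hd fun i hi => (hd1 i hi).le
    have hsub : act u b p ⊆ act u b (p + t • d) := by
      intro i hi
      rw [mem_act, inner_add_smul, hd1 i hi, mul_zero, add_zero]
      exact mem_act.mp hi
    have hss : act u b p ⊂ act u b (p + t • d) :=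
      (ssubset_iff_of_subset hsub).mpr ⟨j, hj', hj⟩
    have hlt2 := card_lt_card hss
    have hle2 := h.simple _ hq
    obtain ⟨s, hs, hs'⟩ := ih (4 - (act u b (p + t • d)).card) (by omega) hq rfl
    exact ⟨s, hs, hsub.trans hs'⟩

/-- Along an edge. -/
theorem tet_flip (h : SP u b) {t : Finset ι} (ht : t ∈ tets u b) {d : ι} (hd : d ∈ t) :
    ∃ d', d' ∉ t ∧ insert d' (t.erase d) ∈ tets u b ∧
      ∀ t' ∈ tets u b, t.erase d ⊆ t' → t' = t ∨ t' = insert d' (t.erase d) := by
  obtain ⟨hc, p, hp, hpa⟩ := mem_tets.mp ht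
  have hs3 : (t.erase d).card = 3 := by rw [card_erase_of_mem hd, hc]
  obtain ⟨q, hq, d', hd', hqa, huniq⟩ := edge h hp (notMem_erase d t) hs3
    (by rw [insert_erase hd, hpa])
  rw [insert_erase hd] at hd'
  have hd2 : d' ∉ t.erase d := fun hc => hd' (mem_of_mem_erase hc)
  refine ⟨d', hd', mem_tets.mpr ⟨by rw [card_insert_of_notMem hd2, hs3], q, hq, hqa⟩, ?_⟩
  intro t' ht' hsub
  obtain ⟨hc', r, hr, hra⟩ := mem_tets.mp ht'
  rcases huniq r hr (by rw [hra, hc']) (by rw [hra]; exact hsub) with rfl | rfl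
  · left
    rw [← hra, hpa]
  · right
    rw [← hra, hqa]

/-- A triple below a vertex lies below exactly two vertices. -/
theorem card_three (h : SP u b) {y : Finset ι} (hy : y.card = 3) {t : Finset ι}
    (ht : t ∈ tets u b) (hyt : y ⊆ t) : ((tets u b).filter fun t => y ⊆ t).card = 2 := by
  have hc := (mem_tets.mp ht).1
  obtain ⟨d, hd, hdy⟩ : ∃ d ∈ t, d ∉ y := by
    by_contra hcon
    push Not at hcon
    have := card_le_card (show t ⊆ y from hcon)
    omega
  have hye : t.erase d = y := by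
    symm
    apply eq_of_subset_of_card_le
    · intro i hi
      exact mem_erase.mpr ⟨fun hc => hdy (hc ▸ hi), hyt hi⟩
    · rw [card_erase_of_mem hd, hc, hy]
  obtain ⟨d', hd', ht', huniq⟩ := tet_flip h ht hd
  rw [hye] at ht' huniq
  have hset : ((tets u b).filter fun t => y ⊆ t) = {t, insert d' y} := by
    ext s
    rw [mem_filter, mem_insert, mem_singleton]
    constructor
    · rintro ⟨hs, hys⟩
      exact huniq s hs hys
    · rintro (rfl | rfl)
      · exact ⟨ht, hyt⟩
      · exact ⟨ht', subset_insert _ _⟩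
  rw [hset, card_pair]
  intro hcon
  apply hd'
  rw [hcon]
  exact mem_insert_self _ _

/-- The pairs, triples, ... below vertices. -/
noncomputable def faces (u : ι → E4) (b : ι → ℝ) (k : ℕ) : Finset (Finset ι) :=
  (univ.powersetCard k).filter fun x => ∃ t ∈ tets u b, x ⊆ t

theorem mem_faces {k : ℕ} {x : Finset ι} :
    x ∈ faces u b k ↔ x.card = k ∧ ∃ t ∈ tets u b, x ⊆ t := by
  classical
  simp [faces, mem_powersetCard]

/-- The number of vertices over a set. -/
noncomputable def size (u : ι → E4) (b : ι → ℝ) (x : Finset ι) : ℕ :=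
  ((tets u b).filter fun t => x ⊆ t).card

theorem three_le_size (h : SP u b) {x : Finset ι} (hx : x ∈ faces u b 2) :
    3 ≤ size u b x := by
  obtain ⟨hx2, t, ht, hxt⟩ := mem_faces.mp hx
  have hc := (mem_tets.mp ht).1
  have h2 : (t \ x).card = 2 := by
    rw [card_sdiff_of_subset hxt, hc, hx2]
  obtain ⟨c, d, hcd, hcd'⟩ := card_eq_two.mp h2
  have hct : c ∈ t ∧ c ∉ x := by rw [← mem_sdiff, hcd']; simp
  have hdt : d ∈ t ∧ d ∉ x := by rw [← mem_sdiff, hcd']; simp
  obtain ⟨c', hc', hT1, -⟩ := tet_flip h ht hct.1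
  obtain ⟨d', hd', hT2, -⟩ := tet_flip h ht hdt.1
  have hsub : ({t, insert c' (t.erase c), insert d' (t.erase d)} : Finset (Finset ι)) ⊆
      (tets u b).filter fun t => x ⊆ t := by
    intro s hs
    simp only [mem_insert, mem_singleton] at hs
    rw [mem_filter]
    rcases hs with rfl | rfl | rfl
    · exact ⟨ht, hxt⟩
    · exact ⟨hT1, fun i hi => mem_insert_of_mem (mem_erase.mpr ⟨fun e => hct.2 (e ▸ hi), hxt hi⟩)⟩
    · exact ⟨hT2, fun i hi => mem_insert_of_mem (mem_erase.mpr ⟨fun e => hdt.2 (e ▸ hi), hxt hi⟩)⟩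
  have h3 : ({t, insert c' (t.erase c), insert d' (t.erase d)} : Finset (Finset ι)).card = 3 := by
    rw [card_eq_three]
    refine ⟨t, _, _, ?_, ?_, ?_, rfl⟩
    · intro e
      exact hc' (e ▸ mem_insert_self _ _)
    · intro e
      exact hd' (e ▸ mem_insert_self _ _)
    · intro e
      have h4 : d ∈ insert c' (t.erase c) := mem_insert_of_mem (mem_erase.mpr ⟨hcd.symm, hdt.1⟩)
      rw [e, mem_insert] at h4
      rcases h4 with h4 | h4
      · exact hd' (h4 ▸ hdt.1)
      · exact (notMem_erase _ _) h4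
  rw [← h3]
  exact card_le_card hsub

end QMark
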